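import Pool.Agent.W5h13.GP.Defs

/-! (EX) decompositions exist. -/

set_option autoImplicit false

namespace Pool.Agent.W5h13.GP

open Set

theorem exists_gc {α : Type} [PartialOrder α] [Finite α] {Q C : Set α} (h : DC Q C) :
    ∃ C', GC Q C' ∧ C ⊆ C' := by
  have hfin : {C' : Set α | DC Q C'}.Finite := Set.toFinite _
  obtain ⟨m, hm, hmax⟩ := hfin.exists_le_maximal h
  refine ⟨m, ⟨hmax.1, fun C' hC' hle => ?_⟩, hm⟩
  exact le_antisymm (hmax.2 hC' hle) hle

theorem ex : S_EX := by
  intro α _ _ Q
  induction hn : Q.ncard using Nat.strong_induction_on generalizing Q with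
  | _ n ih =>
    rcases Q.eq_empty_or_nonempty with rfl | hQ
    · exact ⟨0, Full.nil⟩
    · obtain ⟨x, hx, hmin⟩ := Q.toFinite.exists_minimal hQ
      have hdc : DC Q {x} := by
        refine ⟨by simpa using hx, by simp, ?_⟩
        rintro z hz y hy hyz
        rw [mem_singleton_iff] at hz
        rw [hz] at hyz
        rw [mem_singleton_iff]
        exact le_antisymm hyz (hmin hy hyz)
      obtain ⟨C, hC, hxC⟩ := exists_gc hdc
      have hxC' : x ∈ C := hxC (mem_singleton x)
      have hlt : (Q \ C).ncard < n := by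
        rw [← hn]
        exact ncard_lt_ncard ⟨diff_subset, fun h => (h hx).2 hxC'⟩ Q.toFinite
      obtain ⟨m, hm⟩ := ih _ hlt (Q \ C) rfl
      exact ⟨m + 1, Full.cons Q C m hQ hC hm⟩

end Pool.Agent.W5h13.GP
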