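import Pool.Agent.W5h13.GP.Defs3
import Pool.Agent.W5h13.GP.EX

set_option autoImplicit false

namespace Pool.Agent.W5h13.GP

open Set

namespace LLP

variable {α : Type} [PartialOrder α]

/-- A down-closed chain which is not greedy can be prolonged by one element. -/
theorem exists_next [Finite α] {V R : Set α} (hR : DC V R) (hn : ¬ GC V R) :
    ∃ b ∈ V, b ∉ R ∧ (∀ r ∈ R, r < b) ∧ ∀ y ∈ V, y < b → y ∈ R := by
  have h1 : ∃ C', DC V C' ∧ R ⊆ C' ∧ C' ≠ R := by
    by_contra hcon
    push Not at hcon
    exact hn ⟨hR, fun C' hC' hsub => hcon C' hC' hsub⟩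
  obtain ⟨C', hC', hsub, hne⟩ := h1
  have hne' : (C' \ R).Nonempty := by
    by_contra hcon
    rw [Set.not_nonempty_iff_eq_empty, Set.sdiff_eq_empty] at hcon
    exact hne (Set.Subset.antisymm hcon hsub)
  obtain ⟨b, hb, hmin⟩ := (Set.toFinite (C' \ R)).exists_minimal hne'
  refine ⟨b, hC'.1 hb.1, hb.2, fun r hr => ?_, fun y hy hyb => ?_⟩
  · rcases hC'.2.1.total (hsub hr) hb.1 with h2 | h2
    · exact lt_of_le_of_ne h2 (fun h3 => hb.2 (h3 ▸ hr))
    · exact absurd (hR.2.2 r hr b (hC'.1 hb.1) h2) hb.2
  · by_contra hyR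
    have hyC : y ∈ C' := hC'.2.2 b hb.1 y hy hyb.le
    exact absurd (hmin ⟨hyC, hyR⟩ hyb.le) (not_le_of_gt hyb)

end LLP

open LLP in
theorem ll (h : S_RES) : S_LL := by
  intro α _ _ V
  induction hN : V.ncard using Nat.strong_induction_on generalizing V with
  | _ N ih =>
  intro R t n hall hR hRne hRn
  obtain ⟨b, hbV, hbR, hRb, hbelow⟩ := exists_next hR hRn
  by_cases hcase : ∃ z ∈ V, z ∉ R ∧ t < z ∧ ∀ y ∈ V, y < z → y ∈ R
  · obtain ⟨z, hzV, hzR, htz, hzlow⟩ := hcase
    -- the chain below z together with z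
    have hR0 : DC V ({r | r ∈ R ∧ r < z} ∪ {z}) := by
      refine ⟨?_, ?_, ?_⟩
      · rintro x (hx | hx)
        · exact hR.1 hx.1
        · rw [Set.mem_singleton_iff] at hx
          rw [hx]
          exact hzV
      · intro x hx y hy _
        rcases hx with hx | hx
        · rcases hy with hy | hy
          · exact hR.2.1.total hx.1 hy.1
          · rw [Set.mem_singleton_iff] at hy
            rw [hy]
            exact Or.inl hx.2.le
        · rw [Set.mem_singleton_iff] at hx
          rw [hx]
          rcases hy with hy | hy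
          · exact Or.inr hy.2.le
          · rw [Set.mem_singleton_iff] at hy
            rw [hy]
            exact Or.inl le_rfl
      · rintro x (hx | hx) y hy hyx
        · exact Or.inl ⟨hR.2.2 x hx.1 y hy hyx, lt_of_le_of_lt hyx hx.2⟩
        · rw [Set.mem_singleton_iff] at hx
          rw [hx] at hyx
          rcases hyx.eq_or_lt with h1 | h1
          · exact Or.inr h1
          · exact Or.inl ⟨hzlow y hy h1, h1⟩
    obtain ⟨K, hK, hsub⟩ := exists_gc hR0
    have hzK : z ∈ K := hsub (Or.inr rfl)
    have hKR : ∀ r ∈ K, r ∈ R → r < z := by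
      intro r hrK hrR
      rcases hK.1.2.1.total hrK hzK with h1 | h1
      · exact lt_of_le_of_ne h1 (fun h2 => hzR (h2 ▸ hrR))
      · exact absurd (hR.2.2 r hrR z hzV h1) hzR
    have hKz : ∀ k ∈ K, k ∉ R → z ≤ k := by
      intro k hkK hkR
      rcases hK.1.2.1.total hkK hzK with h1 | h1
      · rcases h1.eq_or_lt with h2 | h2
        · exact h2.ge
        · exact absurd (hzlow k (hK.1.1 hkK) h2) hkR
      · exact h1
    have hVne : V.Nonempty := ⟨z, hzV⟩
    obtain ⟨n1, hn1⟩ := ex α (V \ K)
    have hn : n1 + 1 = n := hall _ (Full.cons V K n1 hVne hK hn1)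
    have hall1 : ∀ m, Full (V \ K) m → m = n1 := by
      intro m hm
      have := hall _ (Full.cons V K m hVne hK hm)
      omega
    by_cases hRK : R ⊆ K
    · -- the chain K contains R
      refine ⟨K \ R, fun x hx => ⟨hK.1.1 hx.1, hx.2⟩, hK.1.2.1.mono Set.sdiff_subset,
        fun e he => lt_of_lt_of_le htz (hKz e he.1 he.2), fun e he y hy hye =>
          ⟨hK.1.2.2 e he.1 y hy.1 hye, hy.2⟩, ?_, n1, ?_, by omega, fun _ => by omega⟩
      · intro z' hz' hz'E _ hEz' hlow
        have hz'K : z' ∉ K := fun h1 => hz'E ⟨h1, hz'.2⟩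
        have hzz' : z < z' := hEz' z ⟨hzK, hzR⟩
        have hdc : DC V (K ∪ {z'}) := by
          refine ⟨?_, ?_, ?_⟩
          · rintro x (hx | hx)
            · exact hK.1.1 hx
            · rw [Set.mem_singleton_iff] at hx
              rw [hx]
              exact hz'.1
          · have hlt : ∀ x ∈ K, x < z' := by
              intro x hx
              by_cases hxR : x ∈ R
              · exact (hKR x hx hxR).trans hzz'
              · exact hEz' x ⟨hx, hxR⟩
            intro x hx y hy _
            rcases hx with hx | hx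
            · rcases hy with hy | hy
              · exact hK.1.2.1.total hx hy
              · rw [Set.mem_singleton_iff] at hy
                rw [hy]
                exact Or.inl (hlt x hx).le
            · rw [Set.mem_singleton_iff] at hx
              rw [hx]
              rcases hy with hy | hy
              · exact Or.inr (hlt y hy).le
              · rw [Set.mem_singleton_iff] at hy
                rw [hy]
                exact Or.inl le_rfl
          · rintro x (hx | hx) y hy hyx
            · exact Or.inl (hK.1.2.2 x hx y hy hyx)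
            · rw [Set.mem_singleton_iff] at hx
              rw [hx] at hyx
              rcases hyx.eq_or_lt with h1 | h1
              · exact Or.inr h1
              · by_cases hyR : y ∈ R
                · exact Or.inl (hRK hyR)
                · exact Or.inl (hlow y ⟨hy, hyR⟩ h1).1
        have h1 := hK.2 _ hdc Set.subset_union_left
        apply hz'K
        rw [← h1]
        exact Or.inr rfl
      · have h1 : (V \ R) \ (K \ R) = V \ K := by
          ext x
          simp only [mem_sdiff, not_and, not_not]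
          constructor
          · rintro ⟨⟨h2, h3⟩, h4⟩
            exact ⟨h2, fun h5 => h3 (h4 h5)⟩
          · rintro ⟨h2, h3⟩
            exact ⟨⟨h2, fun h4 => h3 (hRK h4)⟩, fun h4 => absurd h4 h3⟩
        rw [h1]
        exact hn1
    · -- induction
      have hbK : b ∉ K := by
        intro h1
        apply hRK
        intro r hr
        exact hK.1.2.2 b h1 r (hR.1 hr) (hRb r hr).le
      obtain ⟨t1, ht1, hmax⟩ := (Set.toFinite K).exists_maximal ⟨z, hzK⟩
      have hle : ∀ k ∈ K, k ≤ t1 := by
        intro k hk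
        rcases hK.1.2.1.total hk ht1 with h1 | h1
        · exact h1
        · exact hmax hk h1
      have hlt : (V \ K).ncard < N := by
        rw [← hN]
        exact ncard_lt_ncard ⟨Set.sdiff_subset, fun h1 => (h1 hzV).2 hzK⟩ V.toFinite
      have hR1 : DC (V \ K) (R \ K) := by
        refine ⟨fun x hx => ⟨hR.1 hx.1, hx.2⟩, hR.2.1.mono Set.sdiff_subset, ?_⟩
        intro x hx y hy hyx
        exact ⟨hR.2.2 x hx.1 y hy.1 hyx, hy.2⟩
      have hR1ne : (R \ K).Nonempty := by
        by_contra h1
        rw [Set.not_nonempty_iff_eq_empty, Set.sdiff_eq_empty] at h1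
        exact hRK h1
      have hR1n : ¬ GC (V \ K) (R \ K) := by
        intro hg
        have hdc : DC (V \ K) ((R \ K) ∪ {b}) := by
          refine ⟨?_, ?_, ?_⟩
          · rintro x (hx | hx)
            · exact ⟨hR.1 hx.1, hx.2⟩
            · rw [Set.mem_singleton_iff] at hx
              rw [hx]
              exact ⟨hbV, hbK⟩
          · intro x hx y hy _
            rcases hx with hx | hx
            · rcases hy with hy | hy
              · exact hR.2.1.total hx.1 hy.1
              · rw [Set.mem_singleton_iff] at hy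
                rw [hy]
                exact Or.inl (hRb x hx.1).le
            · rw [Set.mem_singleton_iff] at hx
              rw [hx]
              rcases hy with hy | hy
              · exact Or.inr (hRb y hy.1).le
              · rw [Set.mem_singleton_iff] at hy
                rw [hy]
                exact Or.inl le_rfl
          · rintro x (hx | hx) y hy hyx
            · exact Or.inl ⟨hR.2.2 x hx.1 y hy.1 hyx, hy.2⟩
            · rw [Set.mem_singleton_iff] at hx
              rw [hx] at hyx
              rcases hyx.eq_or_lt with h1 | h1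
              · exact Or.inr h1
              · exact Or.inl ⟨hbelow y hy.1 h1, hy.2⟩
        have h1 := hg.2 _ hdc Set.subset_union_left
        have h2 : b ∈ R \ K := by
          rw [← h1]
          exact Or.inr rfl
        exact hbR h2.1
      obtain ⟨E1, hE1s, hE1c, hE1t, hE1d, hE1m, m1, hm1, hm1n, hm1E⟩ :=
        ih _ hlt (V \ K) rfl (R \ K) t1 n1 hall1 hR1 hR1ne hR1n
      have ht1R : t1 ∉ R := fun h1 => absurd (hR.2.2 t1 h1 z hzV (hle z hzK)) hzR
      have htt1 : t < t1 := lt_of_lt_of_le htz (hle z hzK)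
      have hE1' : ∀ x ∈ E1, x ∈ V ∧ x ∉ K ∧ x ∉ R := by
        intro x hx
        obtain ⟨⟨h1, h2⟩, h3⟩ := hE1s hx
        exact ⟨h1, h2, fun h4 => h3 ⟨h4, h2⟩⟩
      refine ⟨(K \ R) ∪ E1, ?_, ?_, ?_, ?_, ?_, m1, ?_, by omega, fun _ => by omega⟩
      · rintro x (hx | hx)
        · exact ⟨hK.1.1 hx.1, hx.2⟩
        · exact ⟨(hE1' x hx).1, (hE1' x hx).2.2⟩
      · have hlt' : ∀ x ∈ K, ∀ e ∈ E1, x ≤ e := fun x hx e he => (hle x hx).trans (hE1t e he).le
        intro x hx y hy hxy
        rcases hx with hx | hx
        · rcases hy with hy | hy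
          · exact hK.1.2.1.total hx.1 hy.1
          · exact Or.inl (hlt' x hx.1 y hy)
        · rcases hy with hy | hy
          · exact Or.inr (hlt' y hy.1 x hx)
          · exact hE1c.total hx hy
      · rintro e (he | he)
        · exact lt_of_lt_of_le htz (hKz e he.1 he.2)
        · exact htt1.trans (hE1t e he)
      · rintro e (he | he) y hy hye
        · exact Or.inl ⟨hK.1.2.2 e he.1 y hy.1 hye, hy.2⟩
        · by_cases hyK : y ∈ K
          · exact Or.inl ⟨hyK, hy.2⟩
          · exact Or.inr (hE1d e he y ⟨⟨hy.1, hyK⟩, fun h1 => hy.2 h1.1⟩ hye)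
      · intro z' hz' hz'E _ hEz' hlow
        have hz'K : z' ∉ K := fun h1 => hz'E (Or.inl ⟨h1, hz'.2⟩)
        refine hE1m z' ⟨⟨hz'.1, hz'K⟩, fun h1 => hz'.2 h1.1⟩ (fun h1 => hz'E (Or.inr h1))
          (hEz' t1 (Or.inl ⟨ht1, ht1R⟩)) (fun e he => hEz' e (Or.inr he)) (fun y hy hyz => ?_)
        have hyR : y ∉ R := fun h1 => hy.2 ⟨h1, hy.1.2⟩
        rcases hlow y ⟨hy.1.1, hyR⟩ hyz with h1 | h1
        · exact absurd h1.1 hy.1.2
        · exact h1
      · have h1 : (V \ R) \ ((K \ R) ∪ E1) = ((V \ K) \ (R \ K)) \ E1 := by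
          ext x
          simp only [mem_sdiff, mem_union, not_or, not_and, not_not]
          constructor
          · rintro ⟨⟨h2, h3⟩, h4, h5⟩
            exact ⟨⟨⟨h2, fun h6 => h3 (h4 h6)⟩, fun h6 => absurd h6 h3⟩, h5⟩
          · rintro ⟨⟨⟨h2, h3⟩, h4⟩, h5⟩
            exact ⟨⟨h2, fun h6 => h3 (h4 h6)⟩, fun h6 => absurd h6 h3, h5⟩
        rw [h1]
        exact hm1
  · -- no such element
    push Not at hcase
    obtain ⟨K, hK, hRK⟩ := exists_gc hR
    have hne : R ≠ K := fun h1 => hRn (h1 ▸ hK)
    have hres := h α V R K hR hK hRK hne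
    obtain ⟨m, hm⟩ := ex α (V \ K)
    have hn : m + 1 = n := hall _ (Full.cons V K m ⟨b, hbV⟩ hK hm)
    have h1 : (V \ R) \ (K \ R) = V \ K := by
      ext x
      simp only [mem_sdiff, not_and, not_not]
      constructor
      · rintro ⟨⟨h2, h3⟩, h4⟩
        exact ⟨h2, fun h5 => h3 (h4 h5)⟩
      · rintro ⟨h2, h3⟩
        exact ⟨⟨h2, fun h4 => h3 (hRK h4)⟩, fun h4 => absurd h4 h3⟩
    refine ⟨∅, Set.empty_subset _, Set.Subsingleton.isChain Set.subsingleton_empty,
      fun e he => absurd he (Set.notMem_empty e), fun e he => absurd he (Set.notMem_empty e), ?_,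
      m + 1, ?_, by omega, fun he => absurd he Set.not_nonempty_empty⟩
    · intro z hz _ htz _ hlow
      obtain ⟨y, hyV, hyz, hyR⟩ := hcase z hz.1 hz.2 htz
      exact Set.notMem_empty y (hlow y ⟨hyV, hyR⟩ hyz)
    · rw [Set.sdiff_empty]
      refine Full.cons (V \ R) (K \ R) m ⟨b, hbV, hbR⟩ hres ?_
      rw [h1]
      exact hm

end Pool.Agent.W5h13.GP
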