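import Pool.Agent.W5h13.GP.Defs3
import Pool.Agent.W5h13.GP.EX

/-! (NEC) necessity of the exchange property. -/

set_option autoImplicit false

namespace Pool.Agent.W5h13.GP

open Set

theorem reach_full {α : Type} [PartialOrder α] {Q : Set α} (h : Reach Q) :
    ∃ j, ∀ m, Full Q m → Full (univ : Set α) (m + j) := by
  induction h with
  | start => exact ⟨0, fun m hm => hm⟩
  | step Q C hQ hC ih =>
    obtain ⟨j, hj⟩ := ih
    rcases Q.eq_empty_or_nonempty with h0 | h0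
    · refine ⟨j, fun m hm => hj m ?_⟩
      have h1 : Q \ C = Q := by rw [h0]; simp
      rwa [h1] at hm
    · refine ⟨j + 1, fun m hm => ?_⟩
      have h1 := hj (m + 1) (Full.cons Q C m h0 hC hm)
      have h2 : m + 1 + j = m + (j + 1) := by ring
      rwa [h2] at h1

theorem nec (hres : S_RES) : S_NEC := by
  intro α _ _ hagr Q hQ C₁ C₂ h1 h2 hne hex
  by_contra hcon
  obtain ⟨j, hj⟩ := reach_full hQ
  have hDC : DC (Q \ C₂) (C₁ \ C₂) := by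
    refine ⟨fun x hx => ⟨h1.1.1 hx.1, hx.2⟩, h1.1.2.1.mono diff_subset, ?_⟩
    intro x hx y hy hyx
    exact ⟨h1.1.2.2 x hx.1 y hy.1 hyx, hy.2⟩
  have hne1 : (C₁ \ C₂).Nonempty := by
    rw [nonempty_iff_ne_empty]
    intro h
    rw [diff_eq_empty] at h
    exact hne (h1.2 C₂ h2.1 h).symm
  have hne2 : (C₂ \ C₁).Nonempty := by
    rw [nonempty_iff_ne_empty]
    intro h
    rw [diff_eq_empty] at h
    exact hne (h2.2 C₁ h1.1 h)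
  obtain ⟨K, hK, hRK⟩ := exists_gc hDC
  have hKne : C₁ \ C₂ ≠ K := by
    intro h
    rw [← h] at hK
    exact hcon hK
  have hF := hres α (Q \ C₂) (C₁ \ C₂) K hDC hK hRK hKne
  have hFne : (K \ (C₁ \ C₂)).Nonempty := by
    rw [nonempty_iff_ne_empty]
    intro h
    rw [diff_eq_empty] at h
    exact hKne (Subset.antisymm hRK h)
  obtain ⟨k, hk⟩ := ex α (((Q \ C₂) \ (C₁ \ C₂)) \ (K \ (C₁ \ C₂)))
  -- path A
  have hA0 : (Q \ C₂) \ K = ((Q \ C₂) \ (C₁ \ C₂)) \ (K \ (C₁ \ C₂)) := by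
    ext x
    constructor
    · rintro ⟨hx, hxK⟩
      exact ⟨⟨hx, fun h => hxK (hRK h)⟩, fun h => hxK h.1⟩
    · rintro ⟨⟨hx, hx1⟩, hx2⟩
      exact ⟨hx, fun h => hx2 ⟨h, hx1⟩⟩
  have hA1 : Full (Q \ C₂) (k + 1) := by
    obtain ⟨x, hx⟩ := hne1
    refine Full.cons _ K k ⟨x, hDC.1 hx⟩ hK ?_
    rw [hA0]; exact hk
  have hA2 : Full Q (k + 1 + 1) := by
    obtain ⟨x, hx⟩ := hne1
    exact Full.cons _ C₂ (k + 1) ⟨x, h1.1.1 hx.1⟩ h2 hA1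
  -- path B
  have hB0 : (Q \ C₁) \ (C₂ \ C₁) = (Q \ C₂) \ (C₁ \ C₂) := by
    ext x
    constructor
    · rintro ⟨⟨hx, hx1⟩, hx2⟩
      exact ⟨⟨hx, fun h => hx2 ⟨h, hx1⟩⟩, fun h => hx1 h.1⟩
    · rintro ⟨⟨hx, hx1⟩, hx2⟩
      exact ⟨⟨hx, fun h => hx2 ⟨h, hx1⟩⟩, fun h => hx1 h.1⟩
  have hB1 : Full ((Q \ C₂) \ (C₁ \ C₂)) (k + 1) := by
    obtain ⟨x, hx⟩ := hFne
    exact Full.cons _ _ k ⟨x, hF.1.1 hx⟩ hF hk
  have hB2 : Full (Q \ C₁) (k + 1 + 1) := by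
    obtain ⟨x, hx⟩ := hne2
    refine Full.cons _ (C₂ \ C₁) (k + 1) ⟨x, h2.1.1 hx.1, hx.2⟩ hex ?_
    rw [hB0]; exact hB1
  have hB3 : Full Q (k + 1 + 1 + 1) := by
    obtain ⟨x, hx⟩ := hne1
    exact Full.cons _ C₁ (k + 1 + 1) ⟨x, h1.1.1 hx.1⟩ h1 hB2
  have := hagr _ _ (hj _ hA2) (hj _ hB3)
  omega

end Pool.Agent.W5h13.GP
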