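import Pool.Agent.W5h13.GP.Defs3

/-! (RES) the rest of a greedy chain is a greedy chain. -/

namespace Pool.Agent.W5h13.GP

open Set

theorem res : S_RES := by
  intro α _ V R K hR hK hRK hne
  have hex : (K \ R).Nonempty := by
    by_contra h
    rw [not_nonempty_iff_eq_empty] at h
    refine hne (Subset.antisymm hRK fun x hx => ?_)
    by_contra hx2
    exact (h ▸ (⟨hx, hx2⟩ : x ∈ K \ R) : x ∈ (∅ : Set α))
  have habove : ∀ k ∈ K \ R, ∀ r ∈ R, r ≤ k := by
    intro k hk r hr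
    have hne' : r ≠ k := fun h => hk.2 (h ▸ hr)
    rcases hK.1.2.1 (hRK hr) hk.1 hne' with h | h
    · exact h
    · exact absurd (hR.2.2 r hr k (hK.1.1 hk.1) h) hk.2
  obtain ⟨k₀, hk₀⟩ := hex
  refine ⟨⟨fun x hx => ⟨hK.1.1 hx.1, hx.2⟩, hK.1.2.1.mono fun x hx => hx.1, ?_⟩, ?_⟩
  · intro x hx y hy hyx
    exact ⟨hK.1.2.2 x hx.1 y hy.1 hyx, hy.2⟩
  · intro C hC hsub
    have hCR : ∀ c ∈ C, ∀ r ∈ R, r ≤ c := by
      intro c hc r hr
      rcases eq_or_ne c k₀ with h | h
      · rw [h]; exact habove k₀ hk₀ r hr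
      · rcases hC.2.1 hc (hsub hk₀) h with h' | h'
        · have : c ∈ K := hK.1.2.2 k₀ hk₀.1 c (hC.1 hc).1 h'
          exact habove c ⟨this, (hC.1 hc).2⟩ r hr
        · exact (habove k₀ hk₀ r hr).trans h'
    have hDC : DC V (R ∪ C) := by
      refine ⟨?_, ?_, ?_⟩
      · rintro x (hx | hx)
        · exact hR.1 hx
        · exact (hC.1 hx).1
      · rintro x (hx | hx) y (hy | hy) hxy
        · exact hR.2.1 hx hy hxy
        · exact Or.inl (hCR y hy x hx)
        · exact Or.inr (hCR x hx y hy)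
        · exact hC.2.1 hx hy hxy
      · rintro x (hx | hx) y hy hyx
        · exact Or.inl (hR.2.2 x hx y hy hyx)
        · by_cases hyR : y ∈ R
          · exact Or.inl hyR
          · exact Or.inr (hC.2.2 x hx y ⟨hy, hyR⟩ hyx)
    have hsub2 : K ⊆ R ∪ C := by
      intro x hx
      by_cases hxR : x ∈ R
      · exact Or.inl hxR
      · exact Or.inr (hsub ⟨hx, hxR⟩)
    have := hK.2 _ hDC hsub2
    ext x
    constructor
    · intro hx
      exact ⟨this ▸ (Or.inr hx : x ∈ R ∪ C), (hC.1 hx).2⟩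
    · intro hx; exact hsub hx

end Pool.Agent.W5h13.GP
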