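import Pool.Agent.W5h13.GP.Defs3
import Pool.Agent.W5h13.GP.EX

/-! Sufficiency of the exchange property. -/

namespace Pool.Agent.W5h13.GP

open Set

namespace SuffH

variable {α : Type} [PartialOrder α] [Finite α]

theorem chain_max {C : Set α} (hC : IsChain (· ≤ ·) C) (hne : C.Nonempty) :
    ∃ t ∈ C, ∀ c ∈ C, c ≤ t := by
  obtain ⟨t, ht⟩ := (Set.toFinite C).exists_maximal hne
  refine ⟨t, ht.1, fun c hc => ?_⟩
  rcases eq_or_ne c t with h | h
  · exact h.le
  · rcases hC hc ht.1 h with h' | h'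
    · exact h'
    · exact ht.2 hc h'

theorem gc_ne {Q C : Set α} (hQ : Q.Nonempty) (hC : GC Q C) : C.Nonempty := by
  by_contra h
  rw [not_nonempty_iff_eq_empty] at h
  obtain ⟨m, hm⟩ := (Set.toFinite Q).exists_minimal hQ
  have : DC Q {m} := by
    refine ⟨singleton_subset_iff.mpr hm.1, Set.subsingleton_singleton.isChain, ?_⟩
    intro x hx y hy hyx
    rw [mem_singleton_iff] at hx ⊢
    subst hx
    exact le_antisymm hyx (hm.2 hy hyx)
  have h2 := hC.2 {m} this (by rw [h]; exact empty_subset _)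
  rw [h] at h2
  exact singleton_ne_empty m h2

theorem key (hL : S_LL) {Q C₁ C₂ : Set α} (h1 : GC Q C₁) (h2 : GC Q C₂) (hne : C₁ ≠ C₂)
    (hQ2 : Q.Nonempty)
    (g1 : ∀ m m', Full (Q \ C₁) m → Full (Q \ C₁) m' → m = m')
    (g2 : ∀ m m', Full (Q \ C₂) m → Full (Q \ C₂) m' → m = m') {m₁ m₂ : ℕ}
    (f1 : Full (Q \ C₁) m₁) (f2 : Full (Q \ C₂) m₂)
    (n1 : ¬ GC (Q \ C₁) (C₂ \ C₁)) (n2 : ¬ GC (Q \ C₂) (C₁ \ C₂)) : m₁ ≤ m₂ := by
  have hC2ne := gc_ne hQ2 h2
  obtain ⟨t, htC, htmax⟩ := chain_max h2.1.2.1 hC2ne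
  have hR : DC (Q \ C₂) (C₁ \ C₂) := by
    refine ⟨fun x hx => ⟨h1.1.1 hx.1, hx.2⟩, h1.1.2.1.mono (fun x hx => hx.1), ?_⟩
    intro x hx y hy hyx
    exact ⟨h1.1.2.2 x hx.1 y hy.1 hyx, hy.2⟩
  have hRne : (C₁ \ C₂).Nonempty := by
    by_contra h
    rw [not_nonempty_iff_eq_empty] at h
    have hs : C₁ ⊆ C₂ := fun x hx => by
      by_contra hx2
      exact (h ▸ (⟨hx, hx2⟩ : x ∈ C₁ \ C₂) : x ∈ (∅ : Set α))
    exact hne (h1.2 C₂ h2.1 hs).symm
  have hR2ne : (C₂ \ C₁).Nonempty := by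
    by_contra h
    rw [not_nonempty_iff_eq_empty] at h
    have hs : C₂ ⊆ C₁ := fun x hx => by
      by_contra hx2
      exact (h ▸ (⟨hx, hx2⟩ : x ∈ C₂ \ C₁) : x ∈ (∅ : Set α))
    exact hne (h2.2 C₁ h1.1 hs)
  have htC1 : t ∉ C₁ := by
    intro h
    obtain ⟨c, hc⟩ := hR2ne
    exact hc.2 (h1.1.2.2 t h c (h2.1.1 hc.1) (htmax c hc.1))
  obtain ⟨E, hEs, hEc, hEt, hEd, hEm, m, hF, hm, hm1⟩ := hL α (Q \ C₂) (C₁ \ C₂) t m₂
    (fun m hm => g2 m m₂ hm f2) hR hRne n2
  have hEQ : ∀ e ∈ E, e ∈ Q ∧ e ∉ C₁ ∧ e ∉ C₂ := by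
    intro e he
    obtain ⟨⟨a, b⟩, c⟩ := hEs he
    exact ⟨a, fun h => c ⟨h, b⟩, b⟩
  have hG : GC (Q \ C₁) ((C₂ \ C₁) ∪ E) := by
    refine ⟨⟨?_, ?_, ?_⟩, ?_⟩
    · rintro x (hx | hx)
      · exact ⟨h2.1.1 hx.1, hx.2⟩
      · exact ⟨(hEQ x hx).1, (hEQ x hx).2.1⟩
    · rintro x (hx | hx) y (hy | hy) hxy
      · exact h2.1.2.1 hx.1 hy.1 hxy
      · exact Or.inl ((htmax x hx.1).trans (hEt y hy).le)
      · exact Or.inr ((htmax y hy.1).trans (hEt x hx).le)
      · exact hEc hx hy hxy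
    · rintro x (hx | hx) y hy hyx
      · exact Or.inl ⟨h2.1.2.2 x hx.1 y hy.1 hyx, hy.2⟩
      · by_cases hy2 : y ∈ C₂
        · exact Or.inl ⟨hy2, hy.2⟩
        · exact Or.inr (hEd x hx y ⟨⟨hy.1, hy2⟩, fun h => hy.2 h.1⟩ hyx)
    · intro C' hC' hsub
      by_contra hcon
      have hS : (C' \ ((C₂ \ C₁) ∪ E)).Nonempty := by
        by_contra h
        rw [not_nonempty_iff_eq_empty] at h
        refine hcon (Subset.antisymm (fun x hx => ?_) hsub)
        by_contra hx2
        exact (h ▸ (⟨hx, hx2⟩ : x ∈ C' \ ((C₂ \ C₁) ∪ E)) : x ∈ (∅ : Set α))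
      obtain ⟨z, hz⟩ := (Set.toFinite (C' \ ((C₂ \ C₁) ∪ E))).exists_minimal hS
      have hzC := hz.1.1
      have hzQ := hC'.1 hzC
      have hz2 : z ∉ C₂ := fun h => hz.1.2 (Or.inl ⟨h, hzQ.2⟩)
      have hzE : z ∉ E := fun h => hz.1.2 (Or.inr h)
      have htz : t < z := by
        have htC' : t ∈ C' := hsub (Or.inl ⟨htC, htC1⟩)
        have hne' : t ≠ z := fun h => hz2 (h ▸ htC)
        rcases hC'.2.1 htC' hzC hne' with h | h
        · exact lt_of_le_of_ne h hne'
        · exact absurd (h2.1.2.2 t htC z hzQ.1 h) hz2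
      have hzVR : z ∈ (Q \ C₂) \ (C₁ \ C₂) := ⟨⟨hzQ.1, hz2⟩, fun h => hzQ.2 h.1⟩
      refine hEm z hzVR hzE htz ?_ ?_
      · intro e he
        have hne' : e ≠ z := fun h => hzE (h ▸ he)
        rcases hC'.2.1 (hsub (Or.inr he)) hzC hne' with h | h
        · exact lt_of_le_of_ne h hne'
        · exact absurd (hEd e he z hzVR h) hzE
      · intro y hy hyz
        by_contra hyE
        have hyQ : y ∈ Q \ C₁ := ⟨hy.1.1, fun h => hy.2 ⟨h, hy.1.2⟩⟩
        have hyC' : y ∈ C' := hC'.2.2 z hzC y hyQ hyz.le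
        have hyS : y ∈ C' \ ((C₂ \ C₁) ∪ E) := ⟨hyC', fun h => h.elim (fun h => hy.1.2 h.1) hyE⟩
        exact absurd (hz.2 hyS hyz.le) (not_le_of_gt hyz)
  have hEne : E.Nonempty := by
    by_contra h
    rw [not_nonempty_iff_eq_empty] at h
    rw [h, union_empty] at hG
    exact n1 hG
  have heq : (Q \ C₁) \ ((C₂ \ C₁) ∪ E) = ((Q \ C₂) \ (C₁ \ C₂)) \ E := by
    ext x
    simp only [mem_sdiff, mem_union]
    tauto
  have hQ1 : (Q \ C₁).Nonempty := ⟨t, h2.1.1 htC, htC1⟩
  have hFull : Full (Q \ C₁) (m + 1) := Full.cons _ _ m hQ1 hG (by rw [heq]; exact hF)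
  rw [g1 m₁ (m + 1) f1 hFull]
  exact hm1 hEne

end SuffH

theorem suff (hL : S_LL) (α : Type) [PartialOrder α] [Finite α] (hE : Exch α) : Agr α := by
  have main : ∀ (n : ℕ) (Q : Set α), Q.ncard = n → Reach Q → ∀ m m', Full Q m → Full Q m' →
      m = m' := by
    intro n
    induction n using Nat.strong_induction_on with
    | _ n ih =>
      intro Q hn hQ m m' hm hm'
      rcases Q.eq_empty_or_nonempty with h0 | h0
      · have hz : ∀ k, Full Q k → k = 0 := by
          intro k hk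
          cases hk with
          | nil => rfl
          | cons Q C m h _ _ => rw [h0] at h; exact absurd h (by simp)
        rw [hz m hm, hz m' hm']
      · cases hm with
        | nil => exact absurd h0 (by simp)
        | cons _ C₁ m₁ _ c1 f1 =>
          cases hm' with
          | nil => exact absurd h0 (by simp)
          | cons _ C₂ m₂ _ c2 f2 =>
            have hlt : ∀ C, GC Q C → (Q \ C).ncard < n := by
              intro C hC
              obtain ⟨c, hc⟩ := SuffH.gc_ne h0 hC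
              rw [← hn]
              refine Set.ncard_lt_ncard ⟨fun x hx => hx.1, fun h => ?_⟩ (Set.toFinite Q)
              exact (h (hC.1.1 hc)).2 hc
            have g1 := ih _ (hlt C₁ c1) (Q \ C₁) rfl (Reach.step Q C₁ hQ c1)
            have g2 := ih _ (hlt C₂ c2) (Q \ C₂) rfl (Reach.step Q C₂ hQ c2)
            by_cases hne : C₁ = C₂
            · subst hne
              rw [g1 m₁ m₂ f1 f2]
            · have comm : (Q \ C₁) \ (C₂ \ C₁) = (Q \ C₂) \ (C₁ \ C₂) := by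
                ext x
                simp only [mem_sdiff]
                tauto
              by_cases hG : GC (Q \ C₁) (C₂ \ C₁)
              · have hG2 := hE Q hQ C₁ C₂ c1 c2 hne hG
                obtain ⟨k, hk⟩ := ex α ((Q \ C₁) \ (C₂ \ C₁))
                have hne1 : (Q \ C₁).Nonempty := by
                  by_contra h
                  rw [not_nonempty_iff_eq_empty] at h
                  have hs : C₂ ⊆ C₁ := fun x hx => by
                    by_contra hx2
                    exact (h ▸ (⟨c2.1.1 hx, hx2⟩ : x ∈ Q \ C₁) : x ∈ (∅ : Set α))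
                  exact hne (c2.2 C₁ c1.1 hs)
                have hne2 : (Q \ C₂).Nonempty := by
                  by_contra h
                  rw [not_nonempty_iff_eq_empty] at h
                  have hs : C₁ ⊆ C₂ := fun x hx => by
                    by_contra hx2
                    exact (h ▸ (⟨c1.1.1 hx, hx2⟩ : x ∈ Q \ C₂) : x ∈ (∅ : Set α))
                  exact hne (c1.2 C₂ c2.1 hs).symm
                have e1 := g1 m₁ (k + 1) f1 (Full.cons _ _ k hne1 hG hk)
                have e2 := g2 m₂ (k + 1) f2 (Full.cons _ _ k hne2 hG2 (comm ▸ hk))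
                rw [e1, e2]
              · have hG2 : ¬ GC (Q \ C₂) (C₁ \ C₂) := fun h =>
                  hG (hE Q hQ C₂ C₁ c2 c1 (fun h => hne h.symm) h)
                have a := SuffH.key hL c1 c2 hne h0 g1 g2 f1 f2 hG hG2
                have b := SuffH.key hL c2 c1 (fun h => hne h.symm) h0 g2 g1 f2 f1 hG2 hG
                omega
  intro m m' h h'
  exact main _ univ rfl Reach.start m m' h h'

end Pool.Agent.W5h13.GP
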