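import Pool.Agent.W5h13.GP.Defs

set_option autoImplicit false

namespace Pool.Agent.W5h13.GP

open Set

namespace HA2

variable {α : Type} [PartialOrder α]

/-- The non-minimal elements all of whose lower elements are in `X`. -/
def cpl (X : Set α) : Set α := {b | ¬ IsMin b ∧ ∀ z, z < b → z ∈ X}

/-- The minimal elements of `X` and the elements completed by `X`. -/
def dd (X : Set α) : Set α := {x | (x ∈ X ∧ IsMin x) ∨ x ∈ cpl X}

/-- Every decomposition of `Q'` gives one of `Q` with `n` more chains. -/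
def Red (Q Q' : Set α) (n : ℕ) : Prop := ∀ m, Full Q' m → Full Q (m + n)

theorem Red.refl (Q : Set α) : Red Q Q 0 := fun _ h => h

theorem Red.trans {Q Q' Q'' : Set α} {n n' : ℕ} (h : Red Q Q' n) (h' : Red Q' Q'' n') :
    Red Q Q'' (n' + n) := fun m hm => by
  rw [← add_assoc]
  exact h _ (h' m hm)

theorem red_one {Q C : Set α} (hC : GC Q C) (hne : C.Nonempty) : Red Q (Q \ C) 1 :=
  fun m hm => Full.cons Q C m (hne.mono hC.1.1) hC hm

theorem isMin_of_lt (h : H2 α) {z b : α} (hzb : z < b) : IsMin z := by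
  intro y hy
  by_contra hn
  exact h y z b (lt_of_le_not_ge hy hn) hzb

theorem exists_lt {b : α} (hb : ¬ IsMin b) : ∃ z, z < b := by
  rw [not_isMin_iff] at hb
  exact hb

theorem gc_singleton (h : H2 α) {Q : Set α} {b : α} (hbQ : b ∈ Q) (hb : ¬ IsMin b)
    (hlow : ∀ z, z < b → z ∉ Q) : GC Q {b} := by
  refine ⟨⟨?_, ?_, ?_⟩, ?_⟩
  · rintro _ rfl
    exact hbQ
  · exact Set.Subsingleton.isChain Set.subsingleton_singleton
  · rintro _ rfl y hy hle
    rcases hle.eq_or_lt with h1 | h1
    · exact h1
    · exact absurd hy (hlow y h1)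
  · intro C' hC' hsub
    apply Set.Subset.antisymm _ hsub
    intro y hy
    have hbC : b ∈ C' := hsub rfl
    rcases hC'.2.1.total hy hbC with h1 | h1
    · rcases h1.eq_or_lt with h2 | h2
      · exact h2
      · exact absurd (hC'.1 hy) (hlow y h2)
    · rcases h1.eq_or_lt with h2 | h2
      · exact h2.symm
      · obtain ⟨z, hz⟩ := exists_lt hb
        exact absurd h2 (h z b y hz)

theorem red_many [Finite α] (h : H2 α) (T : Set α) : ∀ Q : Set α, T ⊆ Q →
    (∀ b ∈ T, ¬ IsMin b ∧ ∀ z, z < b → z ∉ Q) → Red Q (Q \ T) T.ncard := by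
  induction T, Set.toFinite T using Set.Finite.induction_on with
  | empty =>
    intro Q _ _
    rw [Set.sdiff_empty, Set.ncard_empty]
    exact Red.refl Q
  | @insert a S ha hS ih =>
    intro Q hTQ hT
    have haT : a ∈ insert a S := Set.mem_insert a S
    have h1 : Red Q (Q \ {a}) 1 :=
      red_one (gc_singleton h (hTQ haT) (hT a haT).1 (hT a haT).2) (Set.singleton_nonempty a)
    have h2 : Red (Q \ {a}) ((Q \ {a}) \ S) S.ncard := by
      apply ih
      · intro b hb
        refine ⟨hTQ (Set.mem_insert_of_mem a hb), ?_⟩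
        rintro rfl
        exact ha hb
      · intro b hb
        refine ⟨(hT b (Set.mem_insert_of_mem a hb)).1, fun z hz hzQ => ?_⟩
        exact (hT b (Set.mem_insert_of_mem a hb)).2 z hz hzQ.1
    have h3 := h1.trans h2
    rw [Set.ncard_insert_of_notMem ha hS]
    have h4 : (Q \ {a}) \ S = Q \ insert a S := by
      rw [Set.sdiff_sdiff, Set.singleton_union]
    rw [h4] at h3
    exact h3

theorem cpl_mono {X Y : Set α} (hXY : X ⊆ Y) : cpl X ⊆ cpl Y :=
  fun _ hb => ⟨hb.1, fun z hz => hXY (hb.2 z hz)⟩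

theorem step [Finite α] (h : H2 α) (X : Set α) (x : α) (hxX : x ∉ X) (hx : IsMin x) :
    Red (dd X)ᶜ (dd (insert x X))ᶜ (max 1 (cpl (insert x X) \ cpl X).ncard) := by
  obtain ⟨T, hT⟩ : ∃ T, T = cpl (insert x X) \ cpl X := ⟨_, rfl⟩
  rw [← hT]
  have hxA : x ∈ (dd X)ᶜ := by
    rintro (h1 | h1)
    · exact hxX h1.1
    · exact h1.1 hx
  -- lower elements of elements of T
  have hTlt : ∀ b ∈ T, x < b := by
    intro b hb
    rw [hT] at hb
    by_contra hn
    apply hb.2
    refine ⟨hb.1.1, fun z hz => ?_⟩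
    rcases hb.1.2 z hz with h1 | h1
    · exact absurd (h1 ▸ hz) hn
    · exact h1
  have hTA : T ⊆ (dd X)ᶜ := by
    intro b hb
    rw [hT] at hb
    rintro (h1 | h1)
    · exact hb.1.1 h1.2
    · exact hb.2 h1
  have hTlow : ∀ b ∈ T, ∀ z, z < b → z ∈ (dd X)ᶜ → z = x := by
    intro b hb z hz hzA
    rw [hT] at hb
    rcases hb.1.2 z hz with h1 | h1
    · exact h1
    · exact absurd (Or.inl ⟨h1, isMin_of_lt h hz⟩) hzA
  have hcompl : (dd (insert x X))ᶜ = ((dd X)ᶜ \ {x}) \ T := by
    ext y
    simp only [mem_compl_iff, mem_sdiff, mem_singleton_iff]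
    constructor
    · intro hy
      refine ⟨⟨?_, ?_⟩, ?_⟩
      · rintro (h1 | h1)
        · exact hy (Or.inl ⟨Set.mem_insert_of_mem x h1.1, h1.2⟩)
        · exact hy (Or.inr (cpl_mono (Set.subset_insert x X) h1))
      · rintro rfl
        exact hy (Or.inl ⟨Set.mem_insert y X, hx⟩)
      · intro hyT
        rw [hT] at hyT
        exact hy (Or.inr hyT.1)
    · rintro ⟨⟨h1, h2⟩, h3⟩ (h4 | h4)
      · rcases h4.1 with h5 | h5
        · exact h2 h5
        · exact h1 (Or.inl ⟨h5, h4.2⟩)
      · apply h3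
        rw [hT]
        exact ⟨h4, fun h5 => h1 (Or.inr h5)⟩
  rcases T.eq_empty_or_nonempty with hTe | ⟨b, hb⟩
  · -- no completion
    rw [hcompl, hTe, Set.sdiff_empty, Set.ncard_empty]
    refine red_one ⟨⟨?_, ?_, ?_⟩, ?_⟩ (Set.singleton_nonempty x)
    · rintro _ rfl
      exact hxA
    · exact Set.Subsingleton.isChain Set.subsingleton_singleton
    · rintro _ rfl y _ hle
      exact le_antisymm hle (hx hle)
    · intro C' hC' hsub
      apply Set.Subset.antisymm _ hsub
      intro y hy
      have hxC : x ∈ C' := hsub rfl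
      rcases hC'.2.1.total hy hxC with h1 | h1
      · exact le_antisymm h1 (hx h1)
      · rcases h1.eq_or_lt with h2 | h2
        · exact h2.symm
        · exfalso
          have hyT : y ∈ T := by
            rw [hT]
            refine ⟨⟨fun hm => hm.not_lt h2, fun z hz => ?_⟩, fun hc => hxX (hc.2 x h2)⟩
            by_contra hzX
            have hzm : IsMin z := isMin_of_lt h hz
            have hzA : z ∈ (dd X)ᶜ := by
              rintro (h3 | h3)
              · exact hzX (Set.mem_insert_of_mem x h3.1)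
              · exact h3.1 hzm
            have hzC : z ∈ C' := hC'.2.2 y hy z hzA hz.le
            rcases hC'.2.1.total hzC hxC with h3 | h3
            · exact hzX (Or.inl (le_antisymm h3 (hx h3)))
            · exact hzX (Or.inl (le_antisymm (hzm h3) h3))
          rw [hTe] at hyT
          exact hyT
  · -- completions
    have hxb : x < b := hTlt b hb
    have hbm : ¬ IsMin b := fun hm => hm.not_lt hxb
    have h1 : Red (dd X)ᶜ ((dd X)ᶜ \ {x, b}) 1 := by
      refine red_one ⟨⟨?_, ?_, ?_⟩, ?_⟩ ⟨x, Set.mem_insert x _⟩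
      · rintro y (rfl | rfl)
        · exact hxA
        · exact hTA hb
      · exact IsChain.pair hxb.le
      · rintro y (rfl | rfl) z hz hle
        · exact Or.inl (le_antisymm hle (hx hle))
        · rcases hle.eq_or_lt with h2 | h2
          · exact Or.inr h2
          · exact Or.inl (hTlow y hb z h2 hz)
      · intro C' hC' hsub
        apply Set.Subset.antisymm _ hsub
        intro y hy
        have hbC : b ∈ C' := hsub (Or.inr rfl)
        rcases hC'.2.1.total hy hbC with h2 | h2
        · rcases h2.eq_or_lt with h3 | h3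
          · exact Or.inr h3
          · exact Or.inl (hTlow b hb y h3 (hC'.1 hy))
        · rcases h2.eq_or_lt with h3 | h3
          · exact Or.inr h3.symm
          · exact absurd h3 (h x b y hxb)
    have h2 : Red ((dd X)ᶜ \ {x, b}) (((dd X)ᶜ \ {x, b}) \ (T \ {b})) (T \ {b}).ncard := by
      apply red_many h
      · intro y hy
        refine ⟨hTA hy.1, ?_⟩
        rintro (rfl | h3)
        · exact lt_irrefl _ (hTlt y hy.1)
        · exact hy.2 h3
      · intro y hy
        refine ⟨fun hm => hm.not_lt (hTlt y hy.1), fun z hz hzQ => ?_⟩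
        exact hzQ.2 (Or.inl (hTlow y hy.1 z hz hzQ.1))
    have h3 := h1.trans h2
    have h4 : ((dd X)ᶜ \ {x, b}) \ (T \ {b}) = (dd (insert x X))ᶜ := by
      rw [hcompl]
      ext y
      simp only [mem_sdiff, mem_insert_iff, mem_singleton_iff, not_or, not_and, not_not]
      constructor
      · rintro ⟨⟨ha, hb', hc⟩, hd⟩
        exact ⟨⟨ha, hb'⟩, fun hyT => hc (hd hyT)⟩
      · rintro ⟨⟨ha, hb'⟩, hc⟩
        refine ⟨⟨ha, hb', ?_⟩, fun hyT => absurd hyT hc⟩
        rintro rfl
        exact hc hb
    have h5 : (T \ {b}).ncard + 1 = T.ncard := Set.ncard_sdiff_singleton_add_one hb (Set.toFinite T)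
    rw [h4, h5] at h3
    rw [max_eq_right (by omega)]
    exact h3

theorem dd_insert_of_not_isMin (h : H2 α) (X : Set α) (x : α) (hx : ¬ IsMin x) :
    cpl (insert x X) = cpl X ∧ dd (insert x X) = dd X := by
  have h1 : cpl (insert x X) = cpl X := by
    apply Set.Subset.antisymm _ (cpl_mono (Set.subset_insert x X))
    intro b hb
    refine ⟨hb.1, fun z hz => ?_⟩
    rcases hb.2 z hz with h2 | h2
    · exact absurd (isMin_of_lt h (h2 ▸ hz)) hx
    · exact h2
  refine ⟨h1, ?_⟩
  ext y
  constructor
  · rintro (h2 | h2)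
    · rcases h2.1 with h3 | h3
      · exact absurd (h3 ▸ h2.2) hx
      · exact Or.inl ⟨h3, h2.2⟩
    · exact Or.inr (h1 ▸ h2)
  · rintro (h2 | h2)
    · exact Or.inl ⟨Set.mem_insert_of_mem x h2.1, h2.2⟩
    · exact Or.inr (h1 ▸ h2)

theorem reach [Finite α] (h : H2 α) (X : Set α) : ∃ n, Red univ (dd X)ᶜ n := by
  induction X, Set.toFinite X using Set.Finite.induction_on with
  | empty =>
    refine ⟨0, ?_⟩
    have : (dd (∅ : Set α))ᶜ = univ := by
      rw [Set.compl_univ_iff]
      ext y
      simp only [mem_empty_iff_false, iff_false]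
      rintro (h1 | h1)
      · exact h1.1
      · obtain ⟨z, hz⟩ := exists_lt h1.1
        exact h1.2 z hz
    rw [this]
    exact Red.refl _
  | @insert a S ha hS ih =>
    obtain ⟨n, hn⟩ := ih
    by_cases hm : IsMin a
    · exact ⟨_, hn.trans (step h S a ha hm)⟩
    · refine ⟨n, ?_⟩
      rw [(dd_insert_of_not_isMin h S a hm).2]
      exact hn

end HA2

open HA2 in
theorem ha2 (hEX : S_EX) : S_HA2 := by
  classical
  intro α _ _ h hall
  have huniq : ∀ (X : Set α) (m m' : ℕ), Full (dd X)ᶜ m → Full (dd X)ᶜ m' → m = m' := by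
    intro X m m' hm hm'
    obtain ⟨n, hn⟩ := reach h X
    have := hall _ _ (hn m hm) (hn m' hm')
    omega
  choose g hg using fun X : Set α => hEX α (dd X)ᶜ
  refine ⟨fun X => -(g X : ℤ) - ((cpl X).ncard : ℤ) + ((X \ {y | IsMin y}).ncard : ℤ), ?_⟩
  intro X x hxX
  beta_reduce
  by_cases hx : IsMin x
  · have h1 : insert x X \ {y | IsMin y} = X \ {y | IsMin y} := by
      ext y
      simp only [mem_sdiff, mem_insert_iff, mem_ofPred_eq]
      constructor
      · rintro ⟨h2 | h2, h3⟩
        · exact absurd (h2 ▸ hx) h3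
        · exact ⟨h2, h3⟩
      · rintro ⟨h2, h3⟩
        exact ⟨Or.inr h2, h3⟩
    have h2 : g X = g (insert x X) + max 1 (cpl (insert x X) \ cpl X).ncard :=
      huniq X _ _ (hg X) (step h X x hxX hx _ (hg (insert x X)))
    have h3 : (cpl (insert x X)).ncard = (cpl X).ncard + (cpl (insert x X) \ cpl X).ncard := by
      have := Set.ncard_sdiff_add_ncard_of_subset (cpl_mono (Set.subset_insert x X))
        (Set.toFinite (cpl (insert x X)))
      omega
    have h4 : dl X x ↔ (cpl (insert x X) \ cpl X).Nonempty := by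
      constructor
      · rintro ⟨b, hb, hz⟩
        refine ⟨b, ⟨fun hm => hm.not_lt hb, fun z hzb => ?_⟩, fun hc => hxX (hc.2 x hb)⟩
        rcases hz z hzb with h5 | h5
        · exact Or.inr h5
        · exact Or.inl h5
      · rintro ⟨b, hb1, hb2⟩
        refine ⟨b, ?_, fun z hz => ?_⟩
        · by_contra hn
          apply hb2
          refine ⟨hb1.1, fun z hz => ?_⟩
          rcases hb1.2 z hz with h5 | h5
          · exact absurd (h5 ▸ hz) hn
          · exact h5
        · rcases hb1.2 z hz with h5 | h5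
          · exact Or.inr h5
          · exact Or.inl h5
    rw [h1]
    by_cases hd : dl X x
    · rw [if_pos hd]
      have h5 : 1 ≤ (cpl (insert x X) \ cpl X).ncard :=
        (Set.ncard_pos (Set.toFinite _)).mpr (h4.mp hd)
      rw [max_eq_right h5] at h2
      omega
    · rw [if_neg hd]
      have h5 : (cpl (insert x X) \ cpl X).ncard = 0 := by
        rw [Set.ncard_eq_zero (Set.toFinite _)]
        exact Set.not_nonempty_iff_eq_empty.mp (fun hn => hd (h4.mpr hn))
      rw [h5] at h2 h3
      simp only [max_eq_left (Nat.zero_le 1)] at h2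
      omega
  · obtain ⟨h1, h2⟩ := dd_insert_of_not_isMin h X x hx
    have h3 : g (insert x X) = g X := by
      apply huniq X _ _ _ (hg X)
      have := hg (insert x X)
      rwa [h2] at this
    have h4 : insert x X \ {y | IsMin y} = insert x (X \ {y | IsMin y}) := by
      rw [Set.insert_sdiff_of_notMem]
      exact hx
    have h5 : (insert x (X \ {y | IsMin y})).ncard = (X \ {y | IsMin y}).ncard + 1 :=
      Set.ncard_insert_of_notMem (fun hm => hxX hm.1) (Set.toFinite _)
    have h6 : ¬ dl X x := by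
      rintro ⟨b, hb, _⟩
      exact hx (isMin_of_lt h hb)
    rw [if_neg h6, h1, h3, h4, h5]
    push_cast
    ring

end Pool.Agent.W5h13.GP
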