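import Pool.Agent.W5h13.GP.Defs

/-! (HB) rank functions and the resolution of `N`s. -/

namespace Pool.Agent.W5h13.GP

open Set

section rk
variable {α : Type} [DecidableEq α]

/-- the rank of a finite set, computed by removing chosen elements. -/
noncomputable def rk (δ : Finset α → α → ℤ) (X : Finset α) : ℤ :=
  if h : X.Nonempty then rk δ (X.erase h.choose) + δ (X.erase h.choose) h.choose else 0
termination_by X.card
decreasing_by exact Finset.card_erase_lt_of_mem h.choose_spec

theorem rk_erase (δ : Finset α → α → ℤ)
    (sq : ∀ (X : Finset α) (x y : α), x ≠ y → x ∉ X → y ∉ X →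
      δ X x + δ (insert x X) y = δ X y + δ (insert y X) x) :
    ∀ (n : ℕ) (X : Finset α), X.card = n → ∀ x ∈ X,
      rk δ X = rk δ (X.erase x) + δ (X.erase x) x := by
  intro n
  induction n using Nat.strong_induction_on with
  | _ n ih =>
    intro X hn x hx
    have hne : X.Nonempty := ⟨x, hx⟩
    have hm : hne.choose ∈ X := hne.choose_spec
    have h0 : rk δ X = rk δ (X.erase hne.choose) + δ (X.erase hne.choose) hne.choose := by
      rw [rk, dif_pos hne]
    generalize hne.choose = m at hm h0
    by_cases hxm : x = m
    · subst hxm; exact h0
    · have h1 : x ∈ X.erase m := Finset.mem_erase.mpr ⟨hxm, hx⟩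
      have h2 : m ∈ X.erase x := Finset.mem_erase.mpr ⟨fun h => hxm h.symm, hm⟩
      have i1 := ih _ (hn ▸ Finset.card_erase_lt_of_mem hm) (X.erase m) rfl x h1
      have i2 := ih _ (hn ▸ Finset.card_erase_lt_of_mem hx) (X.erase x) rfl m h2
      have hc : (X.erase m).erase x = (X.erase x).erase m := Finset.erase_right_comm
      have s := sq ((X.erase m).erase x) x m hxm (Finset.notMem_erase _ _)
        (by rw [hc]; exact Finset.notMem_erase _ _)
      have e1 : insert x ((X.erase m).erase x) = X.erase m := Finset.insert_erase h1
      have e2 : insert m ((X.erase m).erase x) = X.erase x := by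
        rw [hc]; exact Finset.insert_erase h2
      rw [e1, e2] at s
      rw [← hc] at i2
      linarith

end rk

theorem hb : S_HB := by
  classical
  intro α _ _
  constructor
  · rintro ⟨ρ, hρ⟩ b₁ b₂ x y h1 h2 h3 h4
    by_contra hcon
    push Not at hcon
    have hxy : x ≠ y := fun h => h4 (h ▸ h2)
    let X : Set α := {z | (z < b₁ ∨ z < b₂) ∧ z ≠ x ∧ z ≠ y}
    have hxX : x ∉ X := fun h => h.2.1 rfl
    have hyX : y ∉ X := fun h => h.2.2 rfl
    have a1 : ρ (insert y X) = ρ X + 1 := by
      rw [hρ X y hyX, if_neg]
      rintro ⟨b, hb, hb'⟩
      have hxb : ¬ x < b := fun h => by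
        rcases hb' x h with h | h
        · exact hxX h
        · exact hxy h
      obtain ⟨z, hz, hz1, hz2⟩ := hcon b hb hxb
      rcases hb' z hz with h | h
      · rcases h.1 with h | h
        · exact hz1 h
        · exact hz2 h
      · rw [h] at hz1; exact hz1 h3
    have a2 : ρ (insert x (insert y X)) = ρ (insert y X) + 0 := by
      rw [hρ (insert y X) x (by
        intro h
        rcases h with h | h
        · exact hxy h
        · exact hxX h), if_pos]
      refine ⟨b₁, h1, fun z hz => ?_⟩
      by_cases hzx : z = x
      · exact Or.inr hzx
      · by_cases hzy : z = y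
        · exact Or.inl (Or.inl hzy)
        · exact Or.inl (Or.inr ⟨Or.inl hz, hzx, hzy⟩)
    have a3 : ρ (insert x X) = ρ X + 0 := by
      rw [hρ X x hxX, if_pos]
      refine ⟨b₂, h2, fun z hz => ?_⟩
      by_cases hzx : z = x
      · exact Or.inr hzx
      · exact Or.inl ⟨Or.inr hz, hzx, fun h => h4 (h ▸ hz)⟩
    have a4 : ρ (insert y (insert x X)) = ρ (insert x X) + 0 := by
      rw [hρ (insert x X) y (by
        intro h
        rcases h with h | h
        · exact hxy h.symm
        · exact hyX h), if_pos]
      refine ⟨b₁, h3, fun z hz => ?_⟩
      by_cases hzy : z = y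
      · exact Or.inr hzy
      · by_cases hzx : z = x
        · exact Or.inl (Or.inl hzx)
        · exact Or.inl (Or.inr ⟨Or.inl hz, hzx, hzy⟩)
    rw [insert_comm y x X] at a4
    linarith
  · intro hSE
    let _ : Fintype α := Fintype.ofFinite α
    let δ : Finset α → α → ℤ := fun X x => if dl (X : Set α) x then 0 else 1
    have sq : ∀ (X : Finset α) (x y : α), x ≠ y → x ∉ X → y ∉ X →
        δ X x + δ (insert x X) y = δ X y + δ (insert y X) x := by
      -- monotonicity
      have mono : ∀ (X : Finset α) (x y : α), dl (X : Set α) x →
          dl ((insert y X : Finset α) : Set α) x := by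
        rintro X x y ⟨b, hb, hb'⟩
        refine ⟨b, hb, fun z hz => ?_⟩
        rcases hb' z hz with h | h
        · exact Or.inl (by rw [Finset.coe_insert]; exact Or.inr h)
        · exact Or.inr h
      -- the mixed case
      have mix : ∀ (X : Finset α) (x y : α), x ≠ y → x ∉ X → y ∉ X → dl (X : Set α) x →
          ¬ dl (X : Set α) y → ¬ dl ((insert x X : Finset α) : Set α) y := by
        rintro X x y hxy hx hy ⟨b₂, h2, h2'⟩ hn ⟨b₁, h1, h1'⟩
        have hxb1 : x < b₁ := by
          by_contra hc
          refine hn ⟨b₁, h1, fun z hz => ?_⟩
          rcases h1' z hz with h | h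
          · rw [Finset.coe_insert] at h
            rcases h with h | h
            · rw [h] at hz; exact absurd hz hc
            · exact Or.inl h
          · exact Or.inr h
        have hyb2 : ¬ y < b₂ := fun h => by
          rcases h2' y h with h | h
          · exact hy h
          · exact hxy h.symm
        obtain ⟨b₃, h3, h3x, h3'⟩ := hSE b₁ b₂ x y hxb1 h2 h1 hyb2
        refine hn ⟨b₃, h3, fun z hz => ?_⟩
        have hzx : z ≠ x := fun h => h3x (h ▸ hz)
        rcases h3' z hz with h | h
        · rcases h1' z h with h | h
          · rw [Finset.coe_insert] at h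
            rcases h with h | h
            · exact absurd h hzx
            · exact Or.inl h
          · exact Or.inr h
        · rcases h2' z h with h | h
          · exact Or.inl h
          · exact absurd h hzx
      -- both not completed
      have both : ∀ (X : Finset α) (x y : α), x ≠ y → x ∉ X → y ∉ X → ¬ dl (X : Set α) x →
          ¬ dl (X : Set α) y → dl ((insert x X : Finset α) : Set α) y →
          dl ((insert y X : Finset α) : Set α) x := by
        rintro X x y hxy hx hy hnx hny ⟨b, hb, hb'⟩
        have hxb : x < b := by
          by_contra hc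
          refine hny ⟨b, hb, fun z hz => ?_⟩
          rcases hb' z hz with h | h
          · rw [Finset.coe_insert] at h
            rcases h with h | h
            · rw [h] at hz; exact absurd hz hc
            · exact Or.inl h
          · exact Or.inr h
        refine ⟨b, hxb, fun z hz => ?_⟩
        rw [Finset.coe_insert]
        rcases hb' z hz with h | h
        · rw [Finset.coe_insert] at h
          rcases h with h | h
          · exact Or.inr h
          · exact Or.inl (Or.inr h)
        · exact Or.inl (Or.inl h)
      intro X x y hxy hx hy
      simp only [δ]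
      by_cases cx : dl (X : Set α) x
      · have cx' := mono X x y cx
        by_cases cy : dl (X : Set α) y
        · have cy' := mono X y x cy
          rw [if_pos cx, if_pos cy, if_pos cx', if_pos cy']
        · have cy' := mix X x y hxy hx hy cx cy
          rw [if_pos cx, if_neg cy, if_pos cx', if_neg cy']; norm_num
      · by_cases cy : dl (X : Set α) y
        · have cy' := mono X y x cy
          have cx' := mix X y x hxy.symm hy hx cy cx
          rw [if_neg cx, if_pos cy, if_neg cx', if_pos cy']; norm_num
        · by_cases c : dl ((insert x X : Finset α) : Set α) y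
          · have c' := both X x y hxy hx hy cx cy c
            rw [if_neg cx, if_neg cy, if_pos c, if_pos c']
          · have c' : ¬ dl ((insert y X : Finset α) : Set α) x := fun h =>
              c (both X y x hxy.symm hy hx cy cx h)
            rw [if_neg cx, if_neg cy, if_neg c, if_neg c']
    let F : Set α → Finset α := fun X => Finset.univ.filter fun z => z ∈ X
    have hFm : ∀ X z, z ∈ F X ↔ z ∈ X := fun X z => by simp [F]
    refine ⟨fun X => rk δ (F X), fun X x hx => ?_⟩
    have h1 := rk_erase δ sq _ (F (insert x X)) rfl x ((hFm _ _).mpr (mem_insert _ _))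
    have he : (F (insert x X)).erase x = F X := by
      ext z
      rw [Finset.mem_erase, hFm, hFm, mem_insert_iff]
      constructor
      · rintro ⟨h1, h2 | h2⟩
        · exact absurd h2 h1
        · exact h2
      · intro h
        exact ⟨fun hz => hx (hz ▸ h), Or.inr h⟩
    rw [he] at h1
    have hco : ((F X : Finset α) : Set α) = X := by
      ext z; exact hFm X z
    change rk δ (F (insert x X)) = rk δ (F X) + (if dl X x then 0 else 1)
    rw [h1]
    simp only [δ, hco]

end Pool.Agent.W5h13.GP
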