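import Pool.Agent.W5h13.GP.Defs2

/-! (HBD) a rank function on down-sets from the resolution of the cover-preserving `N`s. -/

namespace Pool.Agent.W5h13.GP

open Set

namespace HBD
section rk
variable {α : Type} [DecidableEq α] [PartialOrder α]

/-- the rank of a finite set, computed by removing chosen maximal elements. -/
noncomputable def rk (δ : Finset α → α → ℤ) (X : Finset α) : ℤ :=
  open Classical in
  if h : ∃ m, m ∈ X ∧ ∀ z ∈ X, ¬ m < z then
    rk δ (X.erase h.choose) + δ (X.erase h.choose) h.choose else 0
termination_by X.card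
decreasing_by exact Finset.card_erase_lt_of_mem h.choose_spec.1

/-- down-sets (finite). -/
def FD (X : Finset α) : Prop := ∀ x ∈ X, ∀ y, y < x → y ∈ X

theorem FD.erase {X : Finset α} (h : FD X) {x : α} (hx : ∀ z ∈ X, ¬ x < z) : FD (X.erase x) := by
  intro a ha y hy
  rw [Finset.mem_erase] at ha ⊢
  refine ⟨fun h' => ?_, h a ha.2 y hy⟩
  rw [h'] at hy
  exact hx a ha.2 hy

theorem rk_erase (δ : Finset α → α → ℤ)
    (sq : ∀ (X : Finset α) (x y : α), FD X → FD (insert x X) → FD (insert y X) → x ≠ y → x ∉ X →
      y ∉ X → δ X x + δ (insert x X) y = δ X y + δ (insert y X) x) :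
    ∀ (n : ℕ) (X : Finset α), X.card = n → FD X → ∀ x ∈ X, (∀ z ∈ X, ¬ x < z) →
      rk δ X = rk δ (X.erase x) + δ (X.erase x) x := by
  classical
  intro n
  induction n using Nat.strong_induction_on with
  | _ n ih =>
    intro X hn hX x hx hxmax
    have hne : ∃ m, m ∈ X ∧ ∀ z ∈ X, ¬ m < z := ⟨x, hx, hxmax⟩
    have hm : hne.choose ∈ X ∧ ∀ z ∈ X, ¬ hne.choose < z := hne.choose_spec
    have h0 : rk δ X = rk δ (X.erase hne.choose) + δ (X.erase hne.choose) hne.choose := by
      rw [rk, dif_pos hne]
    generalize hne.choose = m at hm h0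
    obtain ⟨hm, hmmax⟩ := hm
    by_cases hxm : x = m
    · subst hxm; exact h0
    · have h1 : x ∈ X.erase m := Finset.mem_erase.mpr ⟨hxm, hx⟩
      have h2 : m ∈ X.erase x := Finset.mem_erase.mpr ⟨fun h => hxm h.symm, hm⟩
      have hXm := hX.erase hmmax
      have hXx := hX.erase hxmax
      have i1 := ih _ (hn ▸ Finset.card_erase_lt_of_mem hm) (X.erase m) rfl hXm x h1
        (fun z hz => hxmax z (Finset.mem_of_mem_erase hz))
      have i2 := ih _ (hn ▸ Finset.card_erase_lt_of_mem hx) (X.erase x) rfl hXx m h2
        (fun z hz => hmmax z (Finset.mem_of_mem_erase hz))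
      have hc : (X.erase m).erase x = (X.erase x).erase m := Finset.erase_right_comm
      have e1 : insert x ((X.erase m).erase x) = X.erase m := Finset.insert_erase h1
      have e2 : insert m ((X.erase m).erase x) = X.erase x := by
        rw [hc]; exact Finset.insert_erase h2
      have s := sq ((X.erase m).erase x) x m
        (hXm.erase fun z hz => hxmax z (Finset.mem_of_mem_erase hz))
        (by rw [e1]; exact hXm) (by rw [e2]; exact hXx) hxm (Finset.notMem_erase _ _)
        (by rw [hc]; exact Finset.notMem_erase _ _)
      rw [e1, e2] at s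
      rw [← hc] at i2
      linarith

end rk
end HBD

open HBD in
theorem hbd : S_HBD := by
  classical
  intro α _ _ hSE
  let _ : Fintype α := Fintype.ofFinite α
  let δ : Finset α → α → ℤ := fun X x => if dl (X : Set α) x then 0 else 1
  -- monotonicity
  have mono : ∀ (X : Finset α) (x y : α), dl (X : Set α) x →
      dl ((insert y X : Finset α) : Set α) x := by
    rintro X x y ⟨b, hb, hb'⟩
    refine ⟨b, hb, fun z hz => ?_⟩
    rcases hb' z hz with h | h
    · exact Or.inl (by rw [Finset.coe_insert]; exact Or.inr h)
    · exact Or.inr h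
  -- the mixed case
  have mix : ∀ (X : Finset α) (x y : α), FD X → FD (insert x X) → FD (insert y X) → x ≠ y →
      x ∉ X → y ∉ X → dl (X : Set α) x →
      ¬ dl (X : Set α) y → ¬ dl ((insert x X : Finset α) : Set α) y := by
    rintro X x y hX hXx hXy hxy hx hy ⟨b₂, h2, h2'⟩ hn ⟨b₁, h1, h1'⟩
    have hnxy : ¬ x < y := fun h => by
      have := hXy y (Finset.mem_insert_self _ _) x h
      rcases Finset.mem_insert.mp this with h | h
      · exact hxy h
      · exact hx h
    have hnyx : ¬ y < x := fun h => by
      have := hXx x (Finset.mem_insert_self _ _) y h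
      rcases Finset.mem_insert.mp this with h | h
      · exact hxy h.symm
      · exact hy h
    have hxb1 : x < b₁ := by
      by_contra hc
      refine hn ⟨b₁, h1, fun z hz => ?_⟩
      rcases h1' z hz with h | h
      · rw [Finset.coe_insert] at h
        rcases h with h | h
        · rw [h] at hz; exact absurd hz hc
        · exact Or.inl h
      · exact Or.inr h
    have hyb2 : ¬ y < b₂ := fun h => by
      rcases h2' y h with h | h
      · exact hy h
      · exact hxy h.symm
    have c1 : x ⋖ b₁ := by
      refine ⟨hxb1, fun z hz1 hz2 => ?_⟩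
      rcases h1' z hz2 with h | h
      · rw [Finset.coe_insert] at h
        rcases h with h | h
        · rw [h] at hz1; exact lt_irrefl _ hz1
        · exact hx (hX z h x hz1)
      · rw [h] at hz1; exact hnxy hz1
    have c2 : x ⋖ b₂ := by
      refine ⟨h2, fun z hz1 hz2 => ?_⟩
      rcases h2' z hz2 with h | h
      · exact hx (hX z h x hz1)
      · rw [h] at hz1; exact lt_irrefl _ hz1
    have c3 : y ⋖ b₁ := by
      refine ⟨h1, fun z hz1 hz2 => ?_⟩
      rcases h1' z hz2 with h | h
      · rw [Finset.coe_insert] at h
        rcases h with h | h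
        · rw [h] at hz1; exact hnyx hz1
        · exact hy (hX z h y hz1)
      · rw [h] at hz1; exact lt_irrefl _ hz1
    obtain ⟨b₃, h3, h3x, h3'⟩ := hSE b₁ b₂ x y c1 c2 c3 hyb2
    refine hn ⟨b₃, h3, fun z hz => ?_⟩
    have hzx : z ≠ x := fun h => h3x (h ▸ hz)
    rcases h3' z hz with h | h
    · rcases h1' z h with h | h
      · rw [Finset.coe_insert] at h
        rcases h with h | h
        · exact absurd h hzx
        · exact Or.inl h
      · exact Or.inr h
    · rcases h2' z h with h | h
      · exact Or.inl h
      · exact absurd h hzx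
  -- both not completed
  have both : ∀ (X : Finset α) (x y : α), ¬ dl (X : Set α) y →
      dl ((insert x X : Finset α) : Set α) y →
      dl ((insert y X : Finset α) : Set α) x := by
    rintro X x y hny ⟨b, hb, hb'⟩
    have hxb : x < b := by
      by_contra hc
      refine hny ⟨b, hb, fun z hz => ?_⟩
      rcases hb' z hz with h | h
      · rw [Finset.coe_insert] at h
        rcases h with h | h
        · rw [h] at hz; exact absurd hz hc
        · exact Or.inl h
      · exact Or.inr h
    refine ⟨b, hxb, fun z hz => ?_⟩
    rw [Finset.coe_insert]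
    rcases hb' z hz with h | h
    · rw [Finset.coe_insert] at h
      rcases h with h | h
      · exact Or.inr h
      · exact Or.inl (Or.inr h)
    · exact Or.inl (Or.inl h)
  have sq : ∀ (X : Finset α) (x y : α), FD X → FD (insert x X) → FD (insert y X) → x ≠ y →
      x ∉ X → y ∉ X → δ X x + δ (insert x X) y = δ X y + δ (insert y X) x := by
    intro X x y hX hXx hXy hxy hx hy
    simp only [δ]
    by_cases cx : dl (X : Set α) x
    · have cx' := mono X x y cx
      by_cases cy : dl (X : Set α) y
      · have cy' := mono X y x cy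
        rw [if_pos cx, if_pos cy, if_pos cx', if_pos cy']
      · have cy' := mix X x y hX hXx hXy hxy hx hy cx cy
        rw [if_pos cx, if_neg cy, if_pos cx', if_neg cy']; norm_num
    · by_cases cy : dl (X : Set α) y
      · have cy' := mono X y x cy
        have cx' := mix X y x hX hXy hXx hxy.symm hy hx cy cx
        rw [if_neg cx, if_pos cy, if_neg cx', if_pos cy']; norm_num
      · by_cases c : dl ((insert x X : Finset α) : Set α) y
        · have c' := both X x y cy c
          rw [if_neg cx, if_neg cy, if_pos c, if_pos c']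
        · have c' : ¬ dl ((insert y X : Finset α) : Set α) x := fun h => c (both X y x cx h)
          rw [if_neg cx, if_neg cy, if_neg c, if_neg c']
  let F : Set α → Finset α := fun X => Finset.univ.filter fun z => z ∈ X
  have hFm : ∀ X z, z ∈ F X ↔ z ∈ X := fun X z => by simp [F]
  refine ⟨fun X => rk δ (F X), fun X x hX hXx hx => ?_⟩
  have hFD : FD (F (insert x X)) := fun a ha y hy =>
    (hFm _ _).mpr (hXx a ((hFm _ _).mp ha) y hy)
  have h1 := rk_erase δ sq _ (F (insert x X)) rfl hFD x ((hFm _ _).mpr (mem_insert _ _)) (by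
    intro z hz hxz
    rcases (hFm _ _).mp hz with h | h
    · rw [h] at hxz; exact lt_irrefl _ hxz
    · exact hx (hX z h x hxz))
  have he : (F (insert x X)).erase x = F X := by
    ext z
    rw [Finset.mem_erase, hFm, hFm, mem_insert_iff]
    constructor
    · rintro ⟨h1, h2 | h2⟩
      · exact absurd h2 h1
      · exact h2
    · intro h
      exact ⟨fun hz => hx (hz ▸ h), Or.inr h⟩
  rw [he] at h1
  have hco : ((F X : Finset α) : Set α) = X := by
    ext z; exact hFm X z
  change rk δ (F (insert x X)) = rk δ (F X) + (if dl X x then 0 else 1)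
  rw [h1]
  simp only [δ, hco]

end Pool.Agent.W5h13.GP
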