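import Pool.Agent.W5h13.GP.Defs2

/-!
# (HD): with a rank function on down-sets all decompositions have the same length
-/

namespace Pool.Agent.W5h13.GP

open Set

namespace HDx

variable {α : Type} [PartialOrder α] [Finite α]

/-- `D` is an initial segment of `C`. -/
def Ini (C D : Set α) : Prop := D ⊆ C ∧ ∀ x ∈ D, ∀ y ∈ C, y ≤ x → y ∈ D

theorem dn_union {Q C D : Set α} (hQ : Dn Qᶜ) (hC : DC Q C) (hD : Ini C D) : Dn (Qᶜ ∪ D) := by
  intro x hx y hyx
  rcases hx with hx | hx
  · exact Or.inl (hQ x hx y hyx)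
  · by_cases hy : y ∈ Q
    · exact Or.inr (hD.2 x hx y (hC.2.2 x (hD.1 hx) y hy hyx.le) hyx.le)
    · exact Or.inl hy

/-- the largest element of a nonempty chain -/
theorem exists_top {D : Set α} (hne : D.Nonempty) (hch : IsChain (· ≤ ·) D) :
    ∃ x ∈ D, ∀ y ∈ D, y ≤ x := by
  obtain ⟨x, hx⟩ := (Set.toFinite D).exists_maximal hne
  refine ⟨x, hx.prop, fun y hy => ?_⟩
  rcases hch.total hx.prop hy with h | h
  · exact hx.le_of_ge hy h
  · exact h

/-- the smallest element of a nonempty chain -/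
theorem exists_bot {D : Set α} (hne : D.Nonempty) (hch : IsChain (· ≤ ·) D) :
    ∃ x ∈ D, ∀ y ∈ D, x ≤ y := by
  obtain ⟨x, hx⟩ := (Set.toFinite D).exists_minimal hne
  refine ⟨x, hx.prop, fun y hy => ?_⟩
  rcases hch.total hx.prop hy with h | h
  · exact h
  · exact hx.le_of_le hy h

theorem ini_diff {C D : Set α} (hD : Ini C D) {x : α} (hx : ∀ y ∈ D, y ≤ x) :
    Ini C (D \ {x}) := by
  refine ⟨fun y hy => hD.1 hy.1, fun y hy z hz hzy => ⟨hD.2 y hy.1 z hz hzy, ?_⟩⟩
  intro hzx
  have hzx : z = x := hzx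
  subst hzx
  exact hy.2 (le_antisymm (hx y hy.1) hzy)

theorem union_insert (X : Set α) {D : Set α} {x : α} (hx : x ∈ D) :
    insert x (X ∪ (D \ {x})) = X ∪ D := by
  ext y
  simp only [mem_insert_iff, mem_union, mem_sdiff, mem_singleton_iff]
  constructor
  · rintro (rfl | h | h)
    · exact Or.inr hx
    · exact Or.inl h
    · exact Or.inr h.1
  · rintro (h | h)
    · exact Or.inr (Or.inl h)
    · by_cases hy : y = x
      · exact Or.inl hy
      · exact Or.inr (Or.inr ⟨h, hy⟩)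

theorem step {ρ : Set α → ℤ} (hρ : RankD ρ) {Q C D : Set α} (hQ : Dn Qᶜ) (hC : DC Q C)
    (hD : Ini C D) {x : α} (hxD : x ∈ D) (hx : ∀ y ∈ D, y ≤ x) :
    (dl (Qᶜ ∪ (D \ {x})) x → ρ (Qᶜ ∪ D) = ρ (Qᶜ ∪ (D \ {x}))) ∧
      (¬ dl (Qᶜ ∪ (D \ {x})) x → ρ (Qᶜ ∪ D) = ρ (Qᶜ ∪ (D \ {x})) + 1) := by
  have h1 : Dn (Qᶜ ∪ (D \ {x})) := dn_union hQ hC (ini_diff hD hx)
  have h2 : Dn (insert x (Qᶜ ∪ (D \ {x}))) := by
    rw [union_insert _ hxD]
    exact dn_union hQ hC hD
  have h3 : x ∉ Qᶜ ∪ (D \ {x}) := by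
    rintro (h | h)
    · exact h (hC.1 (hD.1 hxD))
    · exact h.2 rfl
  have h := hρ _ x h1 h2 h3
  rw [union_insert _ hxD] at h
  constructor
  · intro hd
    rw [h, if_pos hd, add_zero]
  · intro hd
    rw [h, if_neg hd]

theorem proper {ρ : Set α → ℤ} (hρ : RankD ρ) {Q C : Set α} (hQ : Dn Qᶜ) (hC : DC Q C) (n : ℕ) :
    ∀ D : Set α, D.ncard = n → Ini C D → D ≠ C → ρ (Qᶜ ∪ D) = ρ Qᶜ := by
  induction n with
  | zero =>
    intro D hn _ _
    have : D = ∅ := (Set.ncard_eq_zero (Set.toFinite D)).1 hn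
    rw [this, union_empty]
  | succ n ih =>
    intro D hn hD hne
    have hDne : D.Nonempty := by
      rw [← Set.ncard_pos (Set.toFinite D)]
      omega
    have hDch : IsChain (· ≤ ·) D := hC.2.1.mono hD.1
    obtain ⟨x, hxD, hx⟩ := exists_top hDne hDch
    have hcard : (D \ {x}).ncard = n := by
      rw [Set.ncard_sdiff_singleton_of_mem hxD, hn]
      rfl
    have hne' : D \ {x} ≠ C := by
      intro h
      have : x ∈ D \ {x} := by
        rw [h]
        exact hD.1 hxD
      exact this.2 rfl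
    rw [(step hρ hQ hC hD hxD hx).1 ?_]
    · exact ih _ hcard (ini_diff hD hx) hne'
    · have hCD : (C \ D).Nonempty := by
        by_contra hcon
        rw [Set.not_nonempty_iff_eq_empty, Set.sdiff_eq_empty] at hcon
        exact hne (subset_antisymm hD.1 hcon)
      obtain ⟨b, hb, hbm⟩ := exists_bot hCD (hC.2.1.mono (fun y hy => hy.1))
      have hxb : x < b := by
        rcases hC.2.1.total (hD.1 hxD) hb.1 with h | h
        · refine lt_of_le_of_ne h ?_
          rintro rfl
          exact hb.2 hxD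
        · exact absurd (hD.2 x hxD b hb.1 h) hb.2
      refine ⟨b, hxb, fun z hz => ?_⟩
      by_cases hzx : z = x
      · exact Or.inr hzx
      left
      by_cases hzQ : z ∈ Q
      · right
        have hzC : z ∈ C := hC.2.2 b hb.1 z hzQ hz.le
        refine ⟨?_, hzx⟩
        by_contra hzD
        exact absurd (hbm z ⟨hzC, hzD⟩) (not_le_of_gt hz)
      · exact Or.inl hzQ

theorem nonempty_gc {Q C : Set α} (hne : Q.Nonempty) (hC : GC Q C) : C.Nonempty := by
  by_contra hcon
  rw [Set.not_nonempty_iff_eq_empty] at hcon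
  obtain ⟨x, hx⟩ := (Set.toFinite Q).exists_minimal hne
  have hd : DC Q {x} := by
    refine ⟨by simpa using hx.prop, IsChain.singleton, ?_⟩
    intro y hy z hz hzy
    have hy : y = x := hy
    subst hy
    exact le_antisymm hzy (hx.le_of_le hz hzy)
  have := hC.2 {x} hd (by simp [hcon])
  rw [hcon] at this
  exact Set.singleton_ne_empty x this

theorem whole {ρ : Set α → ℤ} (hρ : RankD ρ) {Q C : Set α} (hQ : Dn Qᶜ) (hne : Q.Nonempty)
    (hC : GC Q C) : ρ (Qᶜ ∪ C) = ρ Qᶜ + 1 := by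
  have hCne := nonempty_gc hne hC
  obtain ⟨x, hxC, hx⟩ := exists_top hCne hC.1.2.1
  have hI : Ini C C := ⟨subset_rfl, fun _ _ y hy _ => hy⟩
  rw [(step hρ hQ hC.1 hI hxC hx).2 ?_]
  · rw [proper hρ hQ hC.1 _ _ rfl (ini_diff hI hx)]
    intro h
    have : x ∈ C \ {x} := by
      rw [h]
      exact hxC
    exact this.2 rfl
  · rintro ⟨b, hxb, hb⟩
    have hbQ : b ∈ Q := by
      by_contra h
      exact hQ b h x hxb (hC.1.1 hxC)
    have hd : DC Q (insert b C) := by
      refine ⟨Set.insert_subset hbQ hC.1.1, ?_, ?_⟩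
      · refine hC.1.2.1.insert fun c hc _ => Or.inr ((hx c hc).trans hxb.le)
      · intro y hy z hz hzy
        rcases hy with rfl | hy
        · rcases eq_or_lt_of_le hzy with rfl | hlt
          · exact Or.inl rfl
          · rcases hb z hlt with (h | h) | h
            · exact absurd hz h
            · exact Or.inr h.1
            · exact Or.inr (h ▸ hxC)
        · exact Or.inr (hC.1.2.2 y hy z hz hzy)
    have h := hC.2 _ hd (Set.subset_insert b C)
    have hbC : b ∈ C := by
      rw [← h]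
      exact Set.mem_insert b C
    exact absurd (hx b hbC) (not_le_of_gt hxb)

end HDx

theorem hd : S_HD := by
  intro α _ _ ρ hρ Q m hQ hm
  induction hm with
  | nil => simp
  | cons Q C m hne hC _ ih =>
    have h1 : (Q \ C)ᶜ = Qᶜ ∪ C := by
      ext y
      simp only [mem_compl_iff, mem_sdiff, mem_union]
      tauto
    have hI : HDx.Ini C C := ⟨subset_rfl, fun _ _ y hy _ => hy⟩
    have h2 : Dn (Q \ C)ᶜ := by
      rw [h1]
      exact HDx.dn_union hQ hC.1 hI
    have h3 := ih h2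
    rw [h1, HDx.whole hρ hQ hne hC] at h3
    push_cast
    linarith

end Pool.Agent.W5h13.GP
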