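import Pool.Agent.W5h13.GP.Defs2

/-!
# Greedy posets (MP_02c6ed_co): invariance under isomorphism (ISO)
-/

namespace Pool.Agent.W5h13.GP

open Set

section
variable {α β : Type} [PartialOrder α] [PartialOrder β]

theorem dc_image (e : α ≃o β) {Q C : Set α} (h : DC Q C) : DC (e '' Q) (e '' C) := by
  refine ⟨image_mono h.1, ?_, ?_⟩
  · rintro _ ⟨x, hx, rfl⟩ _ ⟨y, hy, rfl⟩ hne
    have hne' : x ≠ y := fun hxy => hne (by rw [hxy])
    rcases h.2.1 hx hy hne' with h1 | h1
    · exact Or.inl (e.le_iff_le.2 h1)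
    · exact Or.inr (e.le_iff_le.2 h1)
  · rintro _ ⟨x, hx, rfl⟩ _ ⟨y, hy, rfl⟩ hle
    exact ⟨y, h.2.2 x hx y hy (e.le_iff_le.1 hle), rfl⟩

theorem symm_image (e : α ≃o β) (S : Set α) : e.symm '' (e '' S) = S := by
  rw [← image_comp]
  have : (e.symm ∘ e : α → α) = id := funext fun x => e.symm_apply_apply x
  rw [this, image_id]

theorem gc_image (e : α ≃o β) {Q C : Set α} (h : GC Q C) : GC (e '' Q) (e '' C) := by
  refine ⟨dc_image e h.1, fun C' hC' hsub => ?_⟩
  have h1 := dc_image e.symm hC'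
  rw [symm_image] at h1
  have h2 : C ⊆ e.symm '' C' := by
    rw [← symm_image e C]
    exact image_mono hsub
  have h3 := h.2 _ h1 h2
  rw [← h3]
  exact (symm_image e.symm C').symm

theorem full_image (e : α ≃o β) {Q : Set α} {m : ℕ} (h : Full Q m) : Full (e '' Q) m := by
  induction h with
  | nil => rw [image_empty]; exact Full.nil
  | cons Q C m hne hC _ ih =>
    refine Full.cons _ (e '' C) m (hne.image e) (gc_image e hC) ?_
    rw [← image_sdiff e.injective]
    exact ih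

theorem full_iso (e : α ≃o β) (m : ℕ) :
    Full (univ : Set α) m → Full (univ : Set β) m := by
  intro h
  have h1 := full_image e h
  rwa [image_univ, e.surjective.range_eq] at h1

theorem covBy_symm (e : α ≃o β) {x y : β} (h : x ⋖ y) : e.symm x ⋖ e.symm y := by
  refine ⟨e.symm.lt_iff_lt.2 h.1, fun z h1 h2 => ?_⟩
  exact h.2 (c := e z) (by rwa [← e.symm.lt_iff_lt, e.symm_apply_apply])
    (by rwa [← e.symm.lt_iff_lt, e.symm_apply_apply])

theorem sec_iso (e : α ≃o β) : SEc α → SEc β := by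
  intro h b₁ b₂ x y h1 h2 h3 h4
  obtain ⟨b₃, h5, h6, h7⟩ := h (e.symm b₁) (e.symm b₂) (e.symm x) (e.symm y)
    (covBy_symm e h1) (covBy_symm e h2) (covBy_symm e h3) (fun h => h4 (e.symm.lt_iff_lt.1 h))
  refine ⟨e b₃, ?_, ?_, ?_⟩
  · rwa [← e.symm.lt_iff_lt, e.symm_apply_apply]
  · intro h8
    rw [← e.symm.lt_iff_lt, e.symm_apply_apply] at h8
    exact h6 h8
  · intro z hz
    rw [← e.symm.lt_iff_lt, e.symm_apply_apply] at hz
    rcases h7 _ hz with h8 | h8
    · exact Or.inl (e.symm.lt_iff_lt.1 h8)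
    · exact Or.inr (e.symm.lt_iff_lt.1 h8)

end

end Pool.Agent.W5h13.GP
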