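import Pool.Agent.W5h13.GP.Defs

/-!
# (JL) The two ways of counting jumps of a linear extension agree
-/

namespace Pool.Agent.W5h13.GP

open Set

theorem JLx.jl_aux {α : Type} [PartialOrder α] :
    ∀ (l₂ l₁ : List α), LinExt (l₁ ++ l₂) → jumps l₂ = jl l₂
  | [], _, _ => by simp [jumps, jl]
  | [x], _, _ => by simp [jumps, jl]
  | x :: y :: l, l₁, h => by
    have ih := JLx.jl_aux (y :: l) (l₁ ++ [x]) (by simpa using h)
    have key : x ⋖ y ↔ x < y := by
      refine ⟨fun h1 => h1.lt, fun h1 => ⟨h1, fun z hxz hzy => ?_⟩⟩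
      have hp := h.2.2
      rw [List.pairwise_append] at hp
      obtain ⟨-, hp2, hp3⟩ := hp
      rw [List.pairwise_cons] at hp2
      obtain ⟨-, hp4⟩ := hp2
      rw [List.pairwise_cons] at hp4
      have hz := h.2.1 z
      rw [List.mem_append, List.mem_cons, List.mem_cons] at hz
      rcases hz with hz | hz | hz | hz
      · exact hp3 z hz x (by simp) hxz
      · exact absurd hxz (by rw [hz]; exact lt_irrefl _)
      · exact absurd hzy (by rw [hz]; exact lt_irrefl _)
      · exact hp4.1 z hz hzy
    rw [jumps, jl, ih]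
    by_cases hxy : x < y
    · rw [if_pos hxy, if_pos (key.2 hxy)]
    · rw [if_neg hxy, if_neg fun h1 => hxy (key.1 h1)]

/-- **(JL)** In a linear extension of the whole poset the two counts agree. -/
theorem jl_eq : S_JL := fun _ _ l h => JLx.jl_aux l [] (by simpa using h)

end Pool.Agent.W5h13.GP
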