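import Mathlib

/-!
# Greedy posets (MP_02c6ed_co): definitions and targets
-/

namespace Pool.Agent.W5h13.GP

open Set

section
variable {α : Type} [PartialOrder α]

/-- `C` is a chain contained in `Q` and a down-set of `Q`. -/
def DC (Q C : Set α) : Prop :=
  C ⊆ Q ∧ IsChain (· ≤ ·) C ∧ ∀ x ∈ C, ∀ y ∈ Q, y ≤ x → y ∈ C

/-- `C` is a greedy chain of `Q`: a maximal chain which is a down-set of `Q`. -/
def GC (Q C : Set α) : Prop := DC Q C ∧ ∀ C', DC Q C' → C ⊆ C' → C' = C

/-- `Run Q k`: some run of the greedy procedure started at `Q` outputs `k`. -/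
inductive Run : Set α → ℕ → Prop
  | stop (Q : Set α) : IsChain (· ≤ ·) Q → Run Q 0
  | step (Q C : Set α) (k : ℕ) : ¬ IsChain (· ≤ ·) Q → GC Q C → Run (Q \ C) k → Run Q (k + 1)

/-- The list `l` is a linear extension of the poset. -/
def LinExt (l : List α) : Prop := l.Nodup ∧ (∀ x, x ∈ l) ∧ l.Pairwise fun x y => ¬ y < x

open Classical in
/-- Number of jumps of a list: consecutive elements `x, y` such that `y` does not cover `x`. -/
noncomputable def jumps : List α → ℕ
  | [] => 0
  | [_] => 0
  | x :: y :: l => (if x ⋖ y then 0 else 1) + jumps (y :: l)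

variable (α) in
/-- The jump number. -/
noncomputable def jn : ℕ := sInf {k | ∃ l : List α, LinExt l ∧ jumps l = k}

variable (α) in
/-- `α` is greedy: every run of the greedy procedure outputs the jump number. -/
def Greedy : Prop := ∀ k, Run (univ : Set α) k → k = jn α

/-- `Full Q m`: `Q` is used up by removing `m` nonempty greedy chains one after the other. -/
inductive Full : Set α → ℕ → Prop
  | nil : Full ∅ 0
  | cons (Q C : Set α) (m : ℕ) : Q.Nonempty → GC Q C → Full (Q \ C) m → Full Q (m + 1)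

/-- The list `l` is a linear extension of the subset `Q`. -/
def LE (Q : Set α) (l : List α) : Prop :=
  l.Nodup ∧ (∀ x, x ∈ l ↔ x ∈ Q) ∧ l.Pairwise fun x y => ¬ y < x

open Classical in
/-- Number of consecutive elements `x, y` of the list such that `x < y` fails. -/
noncomputable def jl : List α → ℕ
  | [] => 0
  | [_] => 0
  | x :: y :: l => (if x < y then 0 else 1) + jl (y :: l)

/-- Some element covers up when `x` is removed after `X`: it lies above `x` and only above
elements of `X` and `x`. -/
def dl (X : Set α) (x : α) : Prop := ∃ b, x < b ∧ ∀ z, z < b → z ∈ X ∨ z = x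

open Classical in
/-- A rank function: it grows by one exactly when nothing is completed. -/
def Rank (ρ : Set α → ℤ) : Prop :=
  ∀ (X : Set α) (x : α), x ∉ X → ρ (insert x X) = ρ X + (if dl X x then 0 else 1)

variable (α) in
/-- Resolution of `N`s: if `x < b₁`, `x < b₂`, `y < b₁`, `y` not below `b₂`, then some `b₃` above
`y`, not above `x`, has all its lower elements below `b₁` or `b₂`. -/
def SE : Prop := ∀ b₁ b₂ x y : α, x < b₁ → x < b₂ → y < b₁ → ¬ y < b₂ →
  ∃ b₃, y < b₃ ∧ ¬ x < b₃ ∧ ∀ z, z < b₃ → z < b₁ ∨ z < b₂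

variable (α) in
/-- No chain of three elements. -/
def H2 : Prop := ∀ x y z : α, x < y → ¬ y < z

end

/-- (F) runs and complete decompositions. -/
def S_F : Prop := ∀ (α : Type) [PartialOrder α] [Finite α] (Q : Set α) (k : ℕ), Q.Nonempty →
  (Run Q k ↔ Full Q (k + 1))

/-- (EX) decompositions exist. -/
def S_EX : Prop := ∀ (α : Type) [PartialOrder α] [Finite α] (Q : Set α), ∃ m, Full Q m

/-- (S1) from a linear extension to a greedy decomposition with at most as many chains. -/
def S_S1 : Prop := ∀ (α : Type) [PartialOrder α] [Finite α] (Q : Set α) (l : List α), Q.Nonempty →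
  LE Q l → ∃ m ≤ jl l + 1, Full Q m

/-- (S2) from a decomposition to a linear extension. -/
def S_S2 : Prop := ∀ (α : Type) [PartialOrder α] [Finite α] (Q : Set α) (m : ℕ), Full Q (m + 1) →
  ∃ l, LE Q l ∧ jl l ≤ m

/-- (JL) in a linear extension of the whole poset the two counts agree. -/
def S_JL : Prop := ∀ (α : Type) [PartialOrder α] (l : List α), LinExt l → jumps l = jl l

/-- (P) parallel composition. -/
def S_P : Prop := ∀ (α β : Type) [PartialOrder α] [PartialOrder β] [Finite α] [Finite β] (m : ℕ),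
  Full (univ : Set (α ⊕ β)) m ↔
    ∃ m₁ m₂, Full (univ : Set α) m₁ ∧ Full (univ : Set β) m₂ ∧ m = m₁ + m₂

/-- (L) series composition. -/
def S_L : Prop := ∀ (α β : Type) [PartialOrder α] [PartialOrder β] [Finite α] [Finite β]
  [Nonempty α] [Nonempty β] (m : ℕ),
  Full (univ : Set (α ⊕ₗ β)) m ↔
    ∃ m₁ m₂, Full (univ : Set α) m₁ ∧ Full (univ : Set β) m₂ ∧ m + 1 = m₁ + m₂

/-- (HB) rank functions and resolution of `N`s. -/
def S_HB : Prop := ∀ (α : Type) [PartialOrder α] [Finite α],
  (∃ ρ : Set α → ℤ, Rank ρ) ↔ SE α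

/-- (HA1) with a rank function all decompositions have the same length. -/
def S_HA1 : Prop := ∀ (α : Type) [PartialOrder α] [Finite α], H2 α → ∀ ρ : Set α → ℤ, Rank ρ →
  ∀ (Q : Set α) (m : ℕ), (∀ x ∈ Q, ∀ y, x < y → y ∈ Q) → Full Q m →
    (m : ℤ) = ({b | b ∈ Q ∧ ¬ IsMin b}.ncard : ℤ) + ρ {x | IsMin x} - ρ {x | IsMin x ∧ x ∉ Q}

/-- (HA2) if all decompositions have the same length there is a rank function. -/
def S_HA2 : Prop := ∀ (α : Type) [PartialOrder α] [Finite α], H2 α →
  (∀ m m', Full (univ : Set α) m → Full (univ : Set α) m' → m = m') →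
  ∃ ρ : Set α → ℤ, Rank ρ

end Pool.Agent.W5h13.GP
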