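import Mathlib
import Pool.Agent.W5h13.GP.Defs

/-! # (L) series composition -/

set_option autoImplicit false

open Set

namespace Pool.Agent.W5h13.GP

namespace SerP

variable {α β : Type} [PartialOrder α] [PartialOrder β]

/-- the union of a subset of `α` and a subset of `β` -/
def J (A : Set α) (B : Set β) : Set (α ⊕ₗ β) :=
  {x | Sum.elim (fun a => a ∈ A) (fun b => b ∈ B) (ofLex x)}

theorem mem_inl {A : Set α} {B : Set β} {a : α} :
    (toLex (Sum.inl a) : α ⊕ₗ β) ∈ J A B ↔ a ∈ A := Iff.rfl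

theorem mem_inr {A : Set α} {B : Set β} {b : β} :
    (toLex (Sum.inr b) : α ⊕ₗ β) ∈ J A B ↔ b ∈ B := Iff.rfl

theorem cas (x : α ⊕ₗ β) : (∃ a, x = toLex (Sum.inl a)) ∨ (∃ b, x = toLex (Sum.inr b)) := by
  rcases h : ofLex x with a | b
  · left; exact ⟨a, by rw [← h]; rfl⟩
  · right; exact ⟨b, by rw [← h]; rfl⟩

theorem exists_J (C : Set (α ⊕ₗ β)) : ∃ A B, C = J A B :=
  ⟨{a | toLex (Sum.inl a) ∈ C}, {b | toLex (Sum.inr b) ∈ C}, by
    ext x
    rcases cas x with ⟨a, rfl⟩ | ⟨b, rfl⟩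
    · rw [mem_inl]; rfl
    · rw [mem_inr]; rfl⟩

theorem J_sub {A C : Set α} {B D : Set β} : J A B ⊆ J C D ↔ A ⊆ C ∧ B ⊆ D := by
  constructor
  · intro h
    exact ⟨fun a ha => mem_inl.mp (h (mem_inl.mpr ha)), fun b hb => mem_inr.mp (h (mem_inr.mpr hb))⟩
  · rintro ⟨h1, h2⟩ x hx
    rcases cas x with ⟨a, rfl⟩ | ⟨b, rfl⟩
    · exact mem_inl.mpr (h1 (mem_inl.mp hx))
    · exact mem_inr.mpr (h2 (mem_inr.mp hx))

theorem J_inj {A C : Set α} {B D : Set β} (h : J A B = J C D) : A = C ∧ B = D := by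
  have h1 := J_sub.mp h.le
  have h2 := J_sub.mp h.ge
  exact ⟨Subset.antisymm h1.1 h2.1, Subset.antisymm h1.2 h2.2⟩

theorem J_diff {A C : Set α} {B D : Set β} : J A B \ J C D = J (A \ C) (B \ D) := by
  ext x
  rcases cas x with ⟨a, rfl⟩ | ⟨b, rfl⟩
  · rw [mem_diff, mem_inl, mem_inl, mem_inl, mem_diff]
  · rw [mem_diff, mem_inr, mem_inr, mem_inr, mem_diff]

theorem J_univ : J (univ : Set α) (univ : Set β) = univ := by
  ext x
  rcases cas x with ⟨a, rfl⟩ | ⟨b, rfl⟩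
  · rw [mem_inl]; simp
  · rw [mem_inr]; simp

theorem dc_J {A C : Set α} {B D : Set β} :
    DC (J A B) (J C D) ↔ DC A C ∧ DC B D ∧ (D.Nonempty → A ⊆ C) := by
  constructor
  · rintro ⟨hsub, hch, hd⟩
    have hs := J_sub.mp hsub
    refine ⟨⟨hs.1, ?_, ?_⟩, ⟨hs.2, ?_, ?_⟩, ?_⟩
    · intro x hx y hy hxy
      have h := hch (mem_inl.mpr hx) (mem_inl.mpr hy) (by
        intro he; exact hxy (Sum.inl.inj (toLex.injective he)))
      rcases h with h | h
      · exact Or.inl (Sum.Lex.inl_le_inl_iff.mp h)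
      · exact Or.inr (Sum.Lex.inl_le_inl_iff.mp h)
    · intro x hx y hy hxy
      exact mem_inl.mp (hd _ (mem_inl.mpr hx) _ (mem_inl.mpr hy) (Sum.Lex.inl_le_inl_iff.mpr hxy))
    · intro x hx y hy hxy
      have h := hch (mem_inr.mpr hx) (mem_inr.mpr hy) (by
        intro he; exact hxy (Sum.inr.inj (toLex.injective he)))
      rcases h with h | h
      · exact Or.inl (Sum.Lex.inr_le_inr_iff.mp h)
      · exact Or.inr (Sum.Lex.inr_le_inr_iff.mp h)
    · intro x hx y hy hxy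
      exact mem_inr.mp (hd _ (mem_inr.mpr hx) _ (mem_inr.mpr hy) (Sum.Lex.inr_le_inr_iff.mpr hxy))
    · rintro ⟨d, hdd⟩ a ha
      exact mem_inl.mp (hd _ (mem_inr.mpr hdd) _ (mem_inl.mpr ha) (Sum.Lex.inl_le_inr a d))
  · rintro ⟨⟨h1, h2, h3⟩, ⟨k1, k2, k3⟩, hn⟩
    refine ⟨J_sub.mpr ⟨h1, k1⟩, ?_, ?_⟩
    · intro x hx y hy hxy
      rcases cas x with ⟨a, rfl⟩ | ⟨b, rfl⟩ <;> rcases cas y with ⟨a', rfl⟩ | ⟨b', rfl⟩
      · rcases h2 (mem_inl.mp hx) (mem_inl.mp hy) (by rintro rfl; exact hxy rfl) with h | h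
        · exact Or.inl (Sum.Lex.inl_le_inl_iff.mpr h)
        · exact Or.inr (Sum.Lex.inl_le_inl_iff.mpr h)
      · exact Or.inl (Sum.Lex.inl_le_inr a b')
      · exact Or.inr (Sum.Lex.inl_le_inr a' b)
      · rcases k2 (mem_inr.mp hx) (mem_inr.mp hy) (by rintro rfl; exact hxy rfl) with h | h
        · exact Or.inl (Sum.Lex.inr_le_inr_iff.mpr h)
        · exact Or.inr (Sum.Lex.inr_le_inr_iff.mpr h)
    · intro x hx y hy hxy
      rcases cas x with ⟨a, rfl⟩ | ⟨b, rfl⟩ <;> rcases cas y with ⟨a', rfl⟩ | ⟨b', rfl⟩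
      · exact mem_inl.mpr (h3 _ (mem_inl.mp hx) _ (mem_inl.mp hy) (Sum.Lex.inl_le_inl_iff.mp hxy))
      · exact absurd hxy Sum.Lex.not_inr_le_inl
      · exact mem_inl.mpr (hn ⟨b, mem_inr.mp hx⟩ (mem_inl.mp hy))
      · exact mem_inr.mpr (k3 _ (mem_inr.mp hx) _ (mem_inr.mp hy) (Sum.Lex.inr_le_inr_iff.mp hxy))

theorem dc_empty {γ : Type} [PartialOrder γ] (Q : Set γ) : DC Q ∅ :=
  ⟨empty_subset _, by simp [IsChain], by simp⟩

theorem dc_self {γ : Type} [PartialOrder γ] {Q : Set γ} (h : IsChain (· ≤ ·) Q) : DC Q Q :=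
  ⟨Subset.rfl, h, fun _ _ y hy _ => hy⟩

theorem gc_not {A C : Set α} {B D : Set β} (hA : ¬ IsChain (· ≤ ·) A) :
    GC (J A B) (J C D) ↔ GC A C ∧ D = ∅ := by
  have hE : ∀ {C' : Set α} {D' : Set β}, DC (J A B) (J C' D') → D' = ∅ := by
    intro C' D' h
    obtain ⟨h1, _, h3⟩ := dc_J.mp h
    by_contra hne
    exact hA (h1.2.1.mono (h3 (nonempty_iff_ne_empty.mpr hne)))
  constructor
  · rintro ⟨hdc, hmax⟩
    have hD := hE hdc
    subst hD
    obtain ⟨h1, h2, h3⟩ := dc_J.mp hdc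
    refine ⟨⟨h1, fun C' hC' hCC => ?_⟩, rfl⟩
    have := hmax (J C' ∅) (dc_J.mpr ⟨hC', dc_empty B, fun h => absurd h (by simp)⟩)
      (J_sub.mpr ⟨hCC, Subset.rfl⟩)
    exact (J_inj this).1
  · rintro ⟨⟨h1, hmax⟩, rfl⟩
    refine ⟨dc_J.mpr ⟨h1, dc_empty B, fun h => absurd h (by simp)⟩, fun X hX hsub => ?_⟩
    obtain ⟨C', D', rfl⟩ := exists_J X
    have hD' := hE hX
    subst hD'
    obtain ⟨k1, _, _⟩ := dc_J.mp hX
    rw [hmax C' k1 (J_sub.mp hsub).1]

theorem gc_ch {A C : Set α} {B D : Set β} (hA : IsChain (· ≤ ·) A) :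
    GC (J A B) (J C D) ↔ C = A ∧ GC B D := by
  constructor
  · rintro ⟨hdc, hmax⟩
    obtain ⟨h1, h2, h3⟩ := dc_J.mp hdc
    have e := hmax (J A D) (dc_J.mpr ⟨dc_self hA, h2, fun _ => Subset.rfl⟩)
      (J_sub.mpr ⟨h1.1, Subset.rfl⟩)
    have e1 := (J_inj e).1
    refine ⟨e1.symm, h2, fun D' hD' hDD => ?_⟩
    have e2 := hmax (J A D') (dc_J.mpr ⟨dc_self hA, hD', fun _ => Subset.rfl⟩)
      (J_sub.mpr ⟨h1.1, hDD⟩)
    exact (J_inj e2).2
  · rintro ⟨rfl, h1, hmax⟩
    refine ⟨dc_J.mpr ⟨dc_self hA, h1, fun _ => Subset.rfl⟩, fun X hX hsub => ?_⟩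
    obtain ⟨C', D', rfl⟩ := exists_J X
    obtain ⟨k1, k2, _⟩ := dc_J.mp hX
    rw [hmax D' k2 (J_sub.mp hsub).2, Subset.antisymm k1.1 (J_sub.mp hsub).1]

theorem full_ne {γ : Type} [PartialOrder γ] {Q : Set γ} (hQ : Q.Nonempty) {m : ℕ}
    (h : Full Q m) : ∃ C k, m = k + 1 ∧ GC Q C ∧ Full (Q \ C) k := by
  cases h with
  | nil => exact absurd hQ (by simp)
  | cons _ C k _ h1 h2 => exact ⟨C, k, rfl, h1, h2⟩

theorem full_emp {γ : Type} [PartialOrder γ] {m : ℕ}
    (h : Full (∅ : Set γ) m) : m = 0 := by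
  generalize hQ : (∅ : Set γ) = Q at h
  cases h with
  | nil => rfl
  | cons _ C k hne h1 h2 => exact absurd hne (by rw [← hQ]; simp)

theorem J_ne_right {A : Set α} {B : Set β} (h : B.Nonempty) : (J A B).Nonempty := by
  obtain ⟨b, hb⟩ := h
  exact ⟨_, mem_inr.mpr hb⟩

theorem J_ne_left {A : Set α} {B : Set β} (h : A.Nonempty) : (J A B).Nonempty := by
  obtain ⟨b, hb⟩ := h
  exact ⟨_, mem_inl.mpr hb⟩

theorem J_emp : J (∅ : Set α) (∅ : Set β) = ∅ := by
  ext x
  rcases cas x with ⟨a, rfl⟩ | ⟨b, rfl⟩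
  · rw [mem_inl]; simp
  · rw [mem_inr]; simp

theorem full_right (m : ℕ) : ∀ B : Set β, Full (J (∅ : Set α) B) m ↔ Full B m := by
  have hch : IsChain (· ≤ ·) (∅ : Set α) := by simp [IsChain]
  induction m with
  | zero =>
    intro B
    rcases B.eq_empty_or_nonempty with rfl | hB
    · rw [J_emp]
      exact ⟨fun _ => Full.nil, fun _ => Full.nil⟩
    · constructor
      · intro h
        obtain ⟨C, k, hk, _⟩ := full_ne (J_ne_right hB) h
        omega
      · intro h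
        obtain ⟨C, k, hk, _⟩ := full_ne hB h
        omega
  | succ m ih =>
    intro B
    rcases B.eq_empty_or_nonempty with rfl | hB
    · rw [J_emp]
      constructor
      · intro h
        have := full_emp h
        omega
      · intro h
        have := full_emp h
        omega
    · constructor
      · intro h
        obtain ⟨C, k, hk, hg, hf⟩ := full_ne (J_ne_right hB) h
        obtain ⟨C, D, rfl⟩ := exists_J C
        obtain ⟨rfl, hD⟩ := (gc_ch hch).mp hg
        obtain rfl : m = k := by omega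
        rw [J_diff, empty_diff] at hf
        exact Full.cons B D m hB hD ((ih _).mp hf)
      · intro h
        obtain ⟨D, k, hk, hg, hf⟩ := full_ne hB h
        obtain rfl : m = k := by omega
        refine Full.cons _ (J ∅ D) m (J_ne_right hB) ((gc_ch hch).mpr ⟨rfl, hg⟩) ?_
        rw [J_diff, empty_diff]
        exact (ih _).mpr hf

theorem full_chain {γ : Type} [PartialOrder γ] {Q : Set γ} (hQ : Q.Nonempty)
    (hc : IsChain (· ≤ ·) Q) (m : ℕ) : Full Q m ↔ m = 1 := by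
  constructor
  · intro h
    obtain ⟨C, k, rfl, hg, hf⟩ := full_ne hQ h
    have : Q = C := hg.2 Q (dc_self hc) hg.1.1
    subst this
    rw [diff_self] at hf
    rw [full_emp hf]
  · rintro rfl
    refine Full.cons Q Q 0 hQ ⟨dc_self hc, fun C' h1 h2 => Subset.antisymm h1.1 h2⟩ ?_
    rw [diff_self]
    exact Full.nil

theorem full_J [Nonempty β] (m : ℕ) : ∀ A : Set α, A.Nonempty →
    (Full (J A (univ : Set β)) m ↔
      ∃ m₁ m₂, Full A m₁ ∧ Full (univ : Set β) m₂ ∧ m + 1 = m₁ + m₂) := by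
  induction m with
  | zero =>
    intro A hA
    constructor
    · intro h
      obtain ⟨C, k, hk, _⟩ := full_ne (J_ne_left hA) h
      omega
    · rintro ⟨m₁, m₂, h1, h2, h3⟩
      obtain ⟨_, k1, hk1, _⟩ := full_ne hA h1
      obtain ⟨_, k2, hk2, _⟩ := full_ne univ_nonempty h2
      omega
  | succ m ih =>
    intro A hA
    by_cases hch : IsChain (· ≤ ·) A
    · constructor
      · intro h
        obtain ⟨C, k, hk, hg, hf⟩ := full_ne (J_ne_left hA) h
        obtain ⟨C, D, rfl⟩ := exists_J C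
        obtain ⟨rfl, hD⟩ := (gc_ch hch).mp hg
        obtain rfl : m = k := by omega
        rw [J_diff, diff_self] at hf
        exact ⟨1, m + 1, (full_chain hA hch 1).mpr rfl,
          Full.cons _ D m univ_nonempty hD ((full_right m _).mp hf), by omega⟩
      · rintro ⟨m₁, m₂, h1, h2, h3⟩
        have := (full_chain hA hch m₁).mp h1
        subst this
        obtain ⟨D, k, hk, hg, hf⟩ := full_ne univ_nonempty h2
        obtain rfl : m = k := by omega
        refine Full.cons _ (J A D) m (J_ne_left hA) ((gc_ch hch).mpr ⟨rfl, hg⟩) ?_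
        rw [J_diff, diff_self]
        exact (full_right m _).mpr hf
    · constructor
      · intro h
        obtain ⟨C, k, hk, hg, hf⟩ := full_ne (J_ne_left hA) h
        obtain ⟨C, D, rfl⟩ := exists_J C
        obtain ⟨hC, rfl⟩ := (gc_not hch).mp hg
        obtain rfl : m = k := by omega
        rw [J_diff, diff_empty] at hf
        have hne : (A \ C).Nonempty := by
          rw [nonempty_iff_ne_empty]
          intro he
          exact hch (hC.1.2.1.mono (diff_eq_empty.mp he))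
        obtain ⟨m₁, m₂, h1, h2, h3⟩ := (ih _ hne).mp hf
        exact ⟨m₁ + 1, m₂, Full.cons A C m₁ hA hC h1, h2, by omega⟩
      · rintro ⟨m₁, m₂, h1, h2, h3⟩
        obtain ⟨C, k, hk, hg, hf⟩ := full_ne hA h1
        have hne : (A \ C).Nonempty := by
          rw [nonempty_iff_ne_empty]
          intro he
          exact hch (hg.1.2.1.mono (diff_eq_empty.mp he))
        refine Full.cons _ (J C ∅) m (J_ne_left hA) ((gc_not hch).mpr ⟨hg, rfl⟩) ?_
        rw [J_diff, diff_empty]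
        exact (ih _ hne).mpr ⟨k, m₂, hf, h2, by omega⟩

end SerP

theorem ser : S_L := by
  intro α β _ _ _ _ _ _ m
  rw [← SerP.J_univ]
  exact SerP.full_J m univ univ_nonempty

end Pool.Agent.W5h13.GP
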