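import Pool.Agent.W5h13.GP.Defs

/-!
# (P) parallel composition
-/

set_option autoImplicit false

namespace Pool.Agent.W5h13.GP

open Set

namespace Par

section
variable {α γ : Type} [PartialOrder α] [PartialOrder γ] {f : α → γ}

/-- a greedy chain of a nonempty set is nonempty -/
theorem gc_nonempty [Finite α] {Q C : Set α} (hQ : Q.Nonempty) (h : GC Q C) : C.Nonempty := by
  obtain ⟨x, hx⟩ := (Set.toFinite Q).exists_minimal hQ
  by_contra hC
  rw [not_nonempty_iff_eq_empty] at hC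
  have h1 : DC Q {x} := by
    refine ⟨singleton_subset_iff.2 hx.prop, IsChain.singleton, ?_⟩
    rintro _ rfl y hy hyx
    exact le_antisymm hyx (hx.le_of_le hy hyx)
  have h2 := h.2 {x} h1 (by rw [hC]; exact empty_subset _)
  rw [hC] at h2
  exact singleton_ne_empty x h2

/-- greedy chains inside a component -/
theorem gc_down (h1 : ∀ x y, f x ≤ f y ↔ x ≤ y) (h2 : ∀ x z, (z ≤ f x ∨ f x ≤ z) → z ∈ range f)
    {Q C : Set γ} (hC : C ⊆ range f) (h : GC Q C) : GC (f ⁻¹' Q) (f ⁻¹' C) := by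
  have hinj : Function.Injective f := fun x y hxy =>
    le_antisymm ((h1 x y).1 hxy.le) ((h1 y x).1 hxy.ge)
  refine ⟨⟨fun x hx => h.1.1 hx, ?_, ?_⟩, ?_⟩
  · intro x hx y hy hxy
    have h3 : f x ≤ f y ∨ f y ≤ f x := h.1.2.1 hx hy (fun h4 => hxy (hinj h4))
    rw [h1, h1] at h3
    exact h3
  · intro x hx y hy hyx
    exact h.1.2.2 _ hx _ hy ((h1 _ _).2 hyx)
  · intro C' hC' hsub
    have h3 : DC Q (f '' C') := by
      refine ⟨?_, ?_, ?_⟩
      · rintro _ ⟨x, hx, rfl⟩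
        exact hC'.1 hx
      · rintro _ ⟨x, hx, rfl⟩ _ ⟨y, hy, rfl⟩ hxy
        have h4 := hC'.2.1 hx hy (fun h4 => hxy (by rw [h4]))
        show f x ≤ f y ∨ f y ≤ f x
        rw [h1, h1]
        exact h4
      · rintro _ ⟨x, hx, rfl⟩ y hy hyx
        obtain ⟨y', rfl⟩ := h2 x y (Or.inl hyx)
        exact ⟨y', hC'.2.2 x hx y' hy ((h1 _ _).1 hyx), rfl⟩
    have h4 : C ⊆ f '' C' := by
      intro c hc
      obtain ⟨x, rfl⟩ := hC hc
      exact ⟨x, hsub hc, rfl⟩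
    rw [← h.2 _ h3 h4, preimage_image_eq _ hinj]

theorem gc_up (h1 : ∀ x y, f x ≤ f y ↔ x ≤ y) (h2 : ∀ x z, (z ≤ f x ∨ f x ≤ z) → z ∈ range f)
    {Q : Set γ} {C1 : Set α} (hne : C1.Nonempty) (h : GC (f ⁻¹' Q) C1) : GC Q (f '' C1) := by
  have hinj : Function.Injective f := fun x y hxy =>
    le_antisymm ((h1 x y).1 hxy.le) ((h1 y x).1 hxy.ge)
  refine ⟨⟨?_, ?_, ?_⟩, ?_⟩
  · rintro _ ⟨x, hx, rfl⟩
    exact h.1.1 hx
  · rintro _ ⟨x, hx, rfl⟩ _ ⟨y, hy, rfl⟩ hxy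
    have h4 := h.1.2.1 hx hy (fun h4 => hxy (by rw [h4]))
    show f x ≤ f y ∨ f y ≤ f x
    rw [h1, h1]
    exact h4
  · rintro _ ⟨x, hx, rfl⟩ y hy hyx
    obtain ⟨y', rfl⟩ := h2 x y (Or.inl hyx)
    exact ⟨y', h.1.2.2 x hx y' hy ((h1 _ _).1 hyx), rfl⟩
  · intro C' hC' hsub
    obtain ⟨c, hc⟩ := hne
    have hr : C' ⊆ range f := by
      intro z hz
      by_cases hzc : z = f c
      · exact ⟨c, hzc.symm⟩
      · exact h2 c z (hC'.2.1 hz (hsub ⟨c, hc, rfl⟩) hzc)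
    have h3 : DC (f ⁻¹' Q) (f ⁻¹' C') := by
      refine ⟨fun x hx => hC'.1 hx, ?_, ?_⟩
      · intro x hx y hy hxy
        have h3 : f x ≤ f y ∨ f y ≤ f x := hC'.2.1 hx hy (fun h4 => hxy (hinj h4))
        rw [h1, h1] at h3
        exact h3
      · intro x hx y hy hyx
        exact hC'.2.2 _ hx _ hy ((h1 _ _).2 hyx)
    have h4 := h.2 _ h3 (fun x hx => hsub ⟨x, hx, rfl⟩)
    rw [← h4, image_preimage_eq_of_subset hr]

/-- shuffling a decomposition of a component into one of the rest -/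
theorem back [Finite α] (h1 : ∀ x y, f x ≤ f y ↔ x ≤ y) (h2 : ∀ x z, (z ≤ f x ∨ f x ≤ z) → z ∈ range f)
    {Q1 : Set α} {m1 : ℕ} (h : Full Q1 m1) : ∀ (Q : Set γ) (n : ℕ), f ⁻¹' Q = Q1 →
      Full (Q \ range f) n → Full Q (n + m1) := by
  have hinj : Function.Injective f := fun x y hxy =>
    le_antisymm ((h1 x y).1 hxy.le) ((h1 y x).1 hxy.ge)
  induction h with
  | nil =>
    intro Q n hQ hF
    have h3 : Q \ range f = Q := by
      ext z
      refine ⟨fun hz => hz.1, fun hz => ⟨hz, ?_⟩⟩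
      rintro ⟨x, rfl⟩
      have : x ∈ f ⁻¹' Q := hz
      rw [hQ] at this
      exact this
    rw [h3] at hF
    exact hF
  | cons Q1 C1 m hne hC _ ih =>
    intro Q n hQ hF
    subst hQ
    have hC1 := gc_nonempty hne hC
    have h3 : f ⁻¹' (Q \ f '' C1) = f ⁻¹' Q \ C1 := by
      rw [preimage_sdiff, preimage_image_eq _ hinj]
    have h4 : (Q \ f '' C1) \ range f = Q \ range f := by
      ext z
      constructor
      · exact fun hz => ⟨hz.1.1, hz.2⟩
      · exact fun hz => ⟨⟨hz.1, fun ⟨x, _, hx⟩ => hz.2 ⟨x, hx⟩⟩, hz.2⟩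
    have h5 := ih (Q \ f '' C1) n h3 (by rw [h4]; exact hF)
    obtain ⟨x, hx⟩ := hne
    exact Full.cons Q (f '' C1) (n + m) ⟨f x, hx⟩ (gc_up h1 h2 hC1 hC) h5

end

section
variable {α β : Type} [PartialOrder α] [PartialOrder β]

theorem iso_l (x : α) (z : α ⊕ β) (h : z ≤ Sum.inl x ∨ Sum.inl x ≤ z) : z ∈ range (Sum.inl : α → α ⊕ β) := by
  cases z with
  | inl a => exact ⟨a, rfl⟩
  | inr b =>
    rcases h with h | h
    · exact absurd h Sum.not_inr_le_inl
    · exact absurd h Sum.not_inl_le_inr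

theorem iso_r (x : β) (z : α ⊕ β) (h : z ≤ Sum.inr x ∨ Sum.inr x ≤ z) : z ∈ range (Sum.inr : β → α ⊕ β) := by
  cases z with
  | inr a => exact ⟨a, rfl⟩
  | inl b =>
    rcases h with h | h
    · exact absurd h Sum.not_inl_le_inr
    · exact absurd h Sum.not_inr_le_inl

theorem forth [Finite α] [Finite β] {Q : Set (α ⊕ β)} {m : ℕ} (h : Full Q m) :
    ∃ m₁ m₂, Full (Sum.inl ⁻¹' Q : Set α) m₁ ∧ Full (Sum.inr ⁻¹' Q : Set β) m₂ ∧ m = m₁ + m₂ := by
  induction h with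
  | nil => exact ⟨0, 0, Full.nil, Full.nil, rfl⟩
  | cons Q C m hne hC _ ih =>
    obtain ⟨m₁, m₂, h1, h2, rfl⟩ := ih
    obtain ⟨c, hc⟩ := gc_nonempty hne hC
    cases c with
    | inl a =>
      have hr : C ⊆ range (Sum.inl : α → α ⊕ β) := by
        intro z hz
        by_cases hzc : z = Sum.inl a
        · exact ⟨a, hzc.symm⟩
        · exact iso_l a z (hC.1.2.1 hz hc hzc)
      have h3 := gc_down (fun x y => Sum.inl_le_inl_iff) iso_l hr hC
      have h4 : (Sum.inr ⁻¹' (Q \ C) : Set β) = Sum.inr ⁻¹' Q := by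
        ext b
        refine ⟨fun hb => hb.1, fun hb => ⟨hb, fun hb2 => ?_⟩⟩
        obtain ⟨x, hx⟩ := hr hb2
        cases hx
      rw [h4] at h2
      refine ⟨m₁ + 1, m₂, Full.cons _ _ m₁ ⟨a, hC.1.1 hc⟩ h3 h1, h2, by omega⟩
    | inr b =>
      have hr : C ⊆ range (Sum.inr : β → α ⊕ β) := by
        intro z hz
        by_cases hzc : z = Sum.inr b
        · exact ⟨b, hzc.symm⟩
        · exact iso_r b z (hC.1.2.1 hz hc hzc)
      have h3 := gc_down (fun x y => Sum.inr_le_inr_iff) iso_r hr hC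
      have h4 : (Sum.inl ⁻¹' (Q \ C) : Set α) = Sum.inl ⁻¹' Q := by
        ext b
        refine ⟨fun hb => hb.1, fun hb => ⟨hb, fun hb2 => ?_⟩⟩
        obtain ⟨x, hx⟩ := hr hb2
        cases hx
      rw [h4] at h1
      refine ⟨m₁, m₂ + 1, h1, Full.cons _ _ m₂ ⟨b, hC.1.1 hc⟩ h3 h2, by omega⟩

end

end Par

open Par

/-- (P) parallel composition. -/
theorem par : S_P := by
  intro α β _ _ _ _ m
  constructor
  · intro h
    exact forth h
  · rintro ⟨m₁, m₂, h1, h2, rfl⟩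
    have h3 : Full ((univ : Set (α ⊕ β)) \ range Sum.inl) (0 + m₂) := by
      refine back (f := (Sum.inr : β → α ⊕ β)) (fun x y => Sum.inr_le_inr_iff) iso_r h2 _ 0 ?_ ?_
      · ext b
        refine ⟨fun _ => mem_univ _, fun _ => ⟨mem_univ _, ?_⟩⟩
        rintro ⟨a, ha⟩
        cases ha
      · have : ((univ : Set (α ⊕ β)) \ range Sum.inl) \ range Sum.inr = ∅ := by
          ext z
          refine ⟨fun hz => ?_, fun hz => absurd hz (notMem_empty _)⟩
          cases z with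
          | inl a => exact (hz.1.2 ⟨a, rfl⟩).elim
          | inr b => exact (hz.2 ⟨b, rfl⟩).elim
        rw [this]
        exact Full.nil
    have h4 := back (f := (Sum.inl : α → α ⊕ β)) (fun x y => Sum.inl_le_inl_iff) iso_l h1 univ (0 + m₂)
      preimage_univ h3
    have h5 : 0 + m₂ + m₁ = m₁ + m₂ := by omega
    rw [h5] at h4
    exact h4

end Pool.Agent.W5h13.GP
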