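import Pool.Agent.W5h13.GP.Defs
import Pool.Agent.W5h13.GP.EX

/-! (S1) from a linear extension to a greedy decomposition. -/

set_option autoImplicit false

namespace Pool.Agent.W5h13.GP

open Set

theorem jl_del {α : Type} [PartialOrder α] (a b : α) (l : List α) :
    jl (a :: l) ≤ jl (a :: b :: l) := by
  classical
  cases l with
  | nil => simp [jl]
  | cons c l =>
    simp only [jl]
    by_cases h1 : a < b
    · by_cases h2 : b < c
      · simp [h1, h2, h1.trans h2]
      · simp only [h1, h2, if_true, if_false]
        split_ifs <;> omega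
    · simp only [h1, if_false]
      split_ifs <;> omega

theorem jl_tail {α : Type} [PartialOrder α] (a : α) (l : List α) : jl l ≤ jl (a :: l) := by
  classical
  cases l with
  | nil => simp [jl]
  | cons c l =>
    simp only [jl]
    omega

theorem jl_cons_sub {α : Type} [PartialOrder α] : ∀ (l₂ : List α) (a : α) (l₁ : List α),
    l₁.Sublist l₂ → jl (a :: l₁) ≤ jl (a :: l₂)
  | [], a, l₁, h => by
    rw [List.sublist_nil.1 h]
  | b :: l₂, a, l₁, h => by
    cases h with
    | cons _ h => exact (jl_cons_sub l₂ a l₁ h).trans (jl_del a b l₂)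
    | cons_cons _ h =>
      rename_i l₁'
      simp only [jl]
      have := jl_cons_sub l₂ b l₁' h
      omega

theorem jl_sub {α : Type} [PartialOrder α] {l₁ l₂ : List α} (h : l₁.Sublist l₂) :
    jl l₁ ≤ jl l₂ := by
  induction h with
  | slnil => exact le_rfl
  | cons a h ih => exact ih.trans (jl_tail _ _)
  | cons_cons a h ih => exact jl_cons_sub _ _ _ h

theorem seg {α : Type} [PartialOrder α] : ∀ (l : List α), l ≠ [] →
    ∃ c r, l = c ++ r ∧ c ≠ [] ∧ c.Pairwise (· < ·) ∧ (r ≠ [] → jl r + 1 ≤ jl l)
  | [], h => absurd rfl h
  | [x], _ => ⟨[x], [], rfl, by simp, by simp, by simp⟩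
  | x :: y :: l, _ => by
    classical
    by_cases hxy : x < y
    · obtain ⟨c, r, h1, h2, h3, h4⟩ := seg (y :: l) (by simp)
      refine ⟨x :: c, r, by rw [h1]; rfl, by simp, ?_, fun hr => ?_⟩
      · rw [List.pairwise_cons]
        refine ⟨fun z hz => ?_, h3⟩
        cases c with
        | nil => exact absurd rfl h2
        | cons w c =>
          have hw : y = w := by
            have := h1
            simp only [List.cons_append, List.cons.injEq] at this
            exact this.1
          subst hw
          rw [List.mem_cons] at hz
          rcases hz with rfl | hz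
          · exact hxy
          · exact hxy.trans ((List.pairwise_cons.1 h3).1 z hz)
      · have := h4 hr
        simp only [jl, hxy, if_true]
        omega
    · refine ⟨[x], y :: l, rfl, by simp, by simp, fun _ => ?_⟩
      simp only [jl, hxy, if_false]
      omega

theorem s1 : S_S1 := by
  classical
  intro α _ _ Q l hQ hl
  induction hn : Q.ncard using Nat.strong_induction_on generalizing Q l with
  | _ n ih =>
    obtain ⟨hnd, hmem, hpw⟩ := hl
    have hl0 : l ≠ [] := by
      rintro rfl
      obtain ⟨x, hx⟩ := hQ
      exact absurd ((hmem x).2 hx) (by simp)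
    obtain ⟨c, r, rfl, hc, hcp, hr⟩ := seg l hl0
    have hdc : DC Q {x | x ∈ c} := by
      refine ⟨fun x hx => (hmem x).1 (List.mem_append_left _ hx), ?_, ?_⟩
      · intro x hx y hy hxy
        rcases List.pairwise_iff_getElem.1 hcp |> fun h => (List.getElem_of_mem hx) with ⟨i, hi, rfl⟩
        rcases List.getElem_of_mem hy with ⟨j, hj, rfl⟩
        rcases lt_trichotomy i j with h | h | h
        · exact Or.inl (List.pairwise_iff_getElem.1 hcp i j hi hj h).le
        · subst h
          exact absurd rfl hxy
        · exact Or.inr (List.pairwise_iff_getElem.1 hcp j i hj hi h).le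
      · intro x hx y hy hyx
        have hy' := (hmem y).2 hy
        rcases List.mem_append.1 hy' with h | h
        · exact h
        · rcases eq_or_lt_of_le hyx with h1 | h1
          · rw [h1]
            exact hx
          · exact absurd h1 ((List.pairwise_append.1 hpw).2.2 x hx y h)
    obtain ⟨C, hC, hcC⟩ := exists_gc hdc
    obtain ⟨x, hx⟩ := List.exists_mem_of_ne_nil c hc
    have hxQ : x ∈ Q := hdc.1 hx
    have hlt : (Q \ C).ncard < n := by
      rw [← hn]
      exact ncard_lt_ncard ⟨diff_subset, fun h => (h hxQ).2 (hcC hx)⟩ Q.toFinite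
    rcases (Q \ C).eq_empty_or_nonempty with h0 | h0
    · refine ⟨1, by omega, Full.cons Q C 0 hQ hC ?_⟩
      rw [h0]
      exact Full.nil
    · have hfil : (c ++ r).filter (fun x => decide (x ∉ C)) = r.filter (fun x => decide (x ∉ C)) := by
        rw [List.filter_append]
        have : c.filter (fun x => decide (x ∉ C)) = [] := by
          rw [List.filter_eq_nil_iff]
          intro a ha
          simpa using hcC ha
        rw [this, List.nil_append]
      have hLE : LE (Q \ C) ((c ++ r).filter (fun x => decide (x ∉ C))) := by
        refine ⟨hnd.filter _, fun x => ?_, hpw.filter _⟩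
        rw [List.mem_filter, hmem, decide_eq_true_iff]
        rfl
      obtain ⟨m, hm, hF⟩ := ih _ hlt (Q \ C) _ h0 hLE rfl
      have hr0 : r ≠ [] := by
        rintro rfl
        obtain ⟨z, hz⟩ := h0
        have := (hLE.2.1 z).2 hz
        rw [hfil] at this
        simp at this
      have h5 := hr hr0
      rw [hfil] at hm
      have h6 : jl (r.filter (fun x => decide (x ∉ C))) ≤ jl r := jl_sub List.filter_sublist
      exact ⟨m + 1, by omega, Full.cons Q C m hQ hC hF⟩

end Pool.Agent.W5h13.GP
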