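import Pool.Agent.W5h13.GP.Defs

/-!
# (S2): from a decomposition into greedy chains to a linear extension
-/

namespace Pool.Agent.W5h13.GP

namespace S2x

theorem jl_append {α : Type} [PartialOrder α] (l₁ l₂ : List α) :
    jl (l₁ ++ l₂) ≤ jl l₁ + 1 + jl l₂ := by
  classical
  induction l₁ with
  | nil => simp [jl]
  | cons x l ih =>
    cases l with
    | nil =>
      cases l₂ with
      | nil => simp [jl]
      | cons y l₂ =>
        simp only [List.cons_append, List.nil_append, jl]
        split_ifs <;> omega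
    | cons y l =>
      simp only [List.cons_append, jl] at ih ⊢
      omega

theorem jl_sorted {α : Type} [PartialOrder α] (l : List α) (h : l.Pairwise (· < ·)) :
    jl l = 0 := by
  classical
  induction l with
  | nil => simp [jl]
  | cons x l ih =>
    cases l with
    | nil => simp [jl]
    | cons y l =>
      have h1 := (List.pairwise_cons.1 h).1 y (by simp)
      have h2 := ih (List.pairwise_cons.1 h).2
      simp only [jl, h1, if_true]
      omega

theorem exists_sorted {α : Type} [PartialOrder α] [Finite α] (n : ℕ) :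
    ∀ C : Set α, C.ncard = n → IsChain (· ≤ ·) C →
      ∃ l : List α, l.Pairwise (· < ·) ∧ ∀ x, x ∈ l ↔ x ∈ C := by
  induction n with
  | zero =>
    intro C hC _
    have : C = ∅ := (Set.ncard_eq_zero (Set.toFinite C)).1 hC
    exact ⟨[], List.Pairwise.nil, by simp [this]⟩
  | succ n ih =>
    intro C hC hch
    have hne : C.Nonempty := by
      rw [← Set.ncard_pos (Set.toFinite C)]
      omega
    obtain ⟨x, hx⟩ := (Set.toFinite C).exists_minimal hne
    have hcard : (C \ {x}).ncard = n := by
      rw [Set.ncard_sdiff_singleton_of_mem hx.prop, hC]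
      rfl
    obtain ⟨l, hl, hm⟩ := ih (C \ {x}) hcard (hch.mono Set.sdiff_subset)
    refine ⟨x :: l, List.pairwise_cons.2 ⟨?_, hl⟩, ?_⟩
    · intro y hy
      obtain ⟨hyC, hyx⟩ := (hm y).1 hy
      have hyx : y ≠ x := hyx
      rcases hch.total hx.prop hyC with h | h
      · exact lt_of_le_of_ne h (Ne.symm hyx)
      · exact absurd (le_antisymm h (hx.le_of_le hyC h)) hyx
    · intro y
      rw [List.mem_cons, hm]
      constructor
      · rintro (rfl | h)
        · exact hx.prop
        · exact h.1
      · intro h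
        by_cases hyx : y = x
        · exact Or.inl hyx
        · exact Or.inr ⟨h, hyx⟩

theorem main {α : Type} [PartialOrder α] [Finite α] (Q : Set α) (m : ℕ) (h : Full Q m) :
    ∃ l, LE Q l ∧ (jl l + 1 ≤ m ∨ l = []) := by
  induction h with
  | nil => exact ⟨[], ⟨List.nodup_nil, by simp, List.Pairwise.nil⟩, Or.inr rfl⟩
  | cons Q C m hQ hC _ ih =>
    obtain ⟨l, ⟨hn, hm, hp⟩, hj⟩ := ih
    obtain ⟨⟨hCQ, hch, hdn⟩, _⟩ := hC
    obtain ⟨c, hc, hcm⟩ := exists_sorted _ C rfl hch
    refine ⟨c ++ l, ⟨?_, ?_, ?_⟩, Or.inl ?_⟩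
    · refine List.nodup_append.2 ⟨hc.imp fun h => ne_of_lt h, hn, ?_⟩
      rintro a ha b hb rfl
      exact ((hm a).1 hb).2 ((hcm a).1 ha)
    · intro x
      rw [List.mem_append, hcm, hm]
      constructor
      · rintro (h | h)
        · exact hCQ h
        · exact h.1
      · intro h
        by_cases hx : x ∈ C
        · exact Or.inl hx
        · exact Or.inr ⟨h, hx⟩
    · refine List.pairwise_append.2 ⟨hc.imp fun h => not_lt_of_gt h, hp, ?_⟩
      intro a ha b hb hba
      exact ((hm b).1 hb).2 (hdn a ((hcm a).1 ha) b ((hm b).1 hb).1 hba.le)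
    · rcases hj with hj | rfl
      · have := jl_append c l
        rw [jl_sorted c hc] at this
        omega
      · rw [List.append_nil, jl_sorted c hc]
        omega

end S2x

theorem s2 : S_S2 := by
  intro α _ _ Q m h
  obtain ⟨l, hl, hj⟩ := S2x.main Q (m + 1) h
  refine ⟨l, hl, ?_⟩
  rcases hj with hj | rfl
  · omega
  · simp [jl]

end Pool.Agent.W5h13.GP
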