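import Pool.Agent.W5h13.GP.Defs2

/-!
# (SL): resolution of the cover-preserving `N`s in disjoint and in series sums
-/

namespace Pool.Agent.W5h13.GP

open Set

namespace SLx

variable {α β : Type} [PartialOrder α] [PartialOrder β]

theorem inl_cov {x y : α} : (Sum.inl x : α ⊕ β) ⋖ Sum.inl y ↔ x ⋖ y := by
  constructor
  · intro h
    refine ⟨Sum.inl_lt_inl_iff.1 h.1, fun z h1 h2 => ?_⟩
    exact h.2 (Sum.inl_lt_inl_iff.2 h1) (Sum.inl_lt_inl_iff.2 h2)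
  · intro h
    refine ⟨Sum.inl_lt_inl_iff.2 h.1, fun z h1 h2 => ?_⟩
    rcases z with z | z
    · exact h.2 (Sum.inl_lt_inl_iff.1 h1) (Sum.inl_lt_inl_iff.1 h2)
    · exact Sum.not_inl_lt_inr h1

theorem inr_cov {x y : β} : (Sum.inr x : α ⊕ β) ⋖ Sum.inr y ↔ x ⋖ y := by
  constructor
  · intro h
    refine ⟨Sum.inr_lt_inr_iff.1 h.1, fun z h1 h2 => ?_⟩
    exact h.2 (Sum.inr_lt_inr_iff.2 h1) (Sum.inr_lt_inr_iff.2 h2)
  · intro h
    refine ⟨Sum.inr_lt_inr_iff.2 h.1, fun z h1 h2 => ?_⟩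
    rcases z with z | z
    · exact Sum.not_inr_lt_inl h1
    · exact h.2 (Sum.inr_lt_inr_iff.1 h1) (Sum.inr_lt_inr_iff.1 h2)

theorem inl_covₗ {x y : α} : (Sum.inlₗ x : α ⊕ₗ β) ⋖ Sum.inlₗ y ↔ x ⋖ y := by
  constructor
  · intro h
    refine ⟨Sum.Lex.inl_lt_inl_iff.1 h.1, fun z h1 h2 => ?_⟩
    exact h.2 (c := Sum.inlₗ z) (Sum.Lex.inl_lt_inl_iff.2 h1) (Sum.Lex.inl_lt_inl_iff.2 h2)
  · intro h
    refine ⟨Sum.Lex.inl_lt_inl_iff.2 h.1, fun z h1 h2 => ?_⟩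
    rcases z with z | z
    · exact h.2 (Sum.Lex.inl_lt_inl_iff.1 h1) (Sum.Lex.inl_lt_inl_iff.1 h2)
    · exact Sum.Lex.not_inr_lt_inl h2

theorem inr_covₗ {x y : β} : (Sum.inrₗ x : α ⊕ₗ β) ⋖ Sum.inrₗ y ↔ x ⋖ y := by
  constructor
  · intro h
    refine ⟨Sum.Lex.inr_lt_inr_iff.1 h.1, fun z h1 h2 => ?_⟩
    exact h.2 (c := Sum.inrₗ z) (Sum.Lex.inr_lt_inr_iff.2 h1) (Sum.Lex.inr_lt_inr_iff.2 h2)
  · intro h
    refine ⟨Sum.Lex.inr_lt_inr_iff.2 h.1, fun z h1 h2 => ?_⟩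
    rcases z with z | z
    · exact Sum.Lex.not_inr_lt_inl h1
    · exact h.2 (Sum.Lex.inr_lt_inr_iff.1 h1) (Sum.Lex.inr_lt_inr_iff.1 h2)

theorem mixed_covₗ {x : α} {y : β} (h : (Sum.inlₗ x : α ⊕ₗ β) ⋖ Sum.inrₗ y) :
    (∀ z, ¬ x < z) ∧ ∀ z, ¬ z < y := by
  constructor
  · intro z hz
    exact h.2 (c := Sum.inlₗ z) (Sum.Lex.inl_lt_inl_iff.2 hz) (Sum.Lex.inl_lt_inr z y)
  · intro z hz
    exact h.2 (c := Sum.inrₗ z) (Sum.Lex.inl_lt_inr x z) (Sum.Lex.inr_lt_inr_iff.2 hz)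

end SLx

open SLx

theorem sec_sum (α β : Type) [PartialOrder α] [PartialOrder β] :
    SEc (α ⊕ β) ↔ SEc α ∧ SEc β := by
  constructor
  · intro h
    constructor
    · intro b₁ b₂ x y h1 h2 h3 h4
      obtain ⟨b₃, h5, h6, h7⟩ := h (Sum.inl b₁) (Sum.inl b₂) (Sum.inl x) (Sum.inl y)
        (inl_cov.2 h1) (inl_cov.2 h2) (inl_cov.2 h3) (fun hc => h4 (Sum.inl_lt_inl_iff.1 hc))
      rcases b₃ with c | c
      · refine ⟨c, Sum.inl_lt_inl_iff.1 h5, fun hc => h6 (Sum.inl_lt_inl_iff.2 hc), fun z hz => ?_⟩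
        rcases h7 (Sum.inl z) (Sum.inl_lt_inl_iff.2 hz) with h | h
        · exact Or.inl (Sum.inl_lt_inl_iff.1 h)
        · exact Or.inr (Sum.inl_lt_inl_iff.1 h)
      · exact absurd h5 Sum.not_inl_lt_inr
    · intro b₁ b₂ x y h1 h2 h3 h4
      obtain ⟨b₃, h5, h6, h7⟩ := h (Sum.inr b₁) (Sum.inr b₂) (Sum.inr x) (Sum.inr y)
        (inr_cov.2 h1) (inr_cov.2 h2) (inr_cov.2 h3) (fun hc => h4 (Sum.inr_lt_inr_iff.1 hc))
      rcases b₃ with c | c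
      · exact absurd h5 Sum.not_inr_lt_inl
      · refine ⟨c, Sum.inr_lt_inr_iff.1 h5, fun hc => h6 (Sum.inr_lt_inr_iff.2 hc), fun z hz => ?_⟩
        rcases h7 (Sum.inr z) (Sum.inr_lt_inr_iff.2 hz) with h | h
        · exact Or.inl (Sum.inr_lt_inr_iff.1 h)
        · exact Or.inr (Sum.inr_lt_inr_iff.1 h)
  · rintro ⟨hα, hβ⟩ b₁ b₂ x y h1 h2 h3 h4
    rcases b₁ with b₁ | b₁ <;> rcases x with x | x <;> rcases y with y | y <;>
      rcases b₂ with b₂ | b₂ <;>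
      first
        | exact absurd h1.1 Sum.not_inl_lt_inr
        | exact absurd h1.1 Sum.not_inr_lt_inl
        | exact absurd h2.1 Sum.not_inl_lt_inr
        | exact absurd h2.1 Sum.not_inr_lt_inl
        | exact absurd h3.1 Sum.not_inl_lt_inr
        | exact absurd h3.1 Sum.not_inr_lt_inl
        | skip
    · obtain ⟨c, h5, h6, h7⟩ := hα b₁ b₂ x y (inl_cov.1 h1) (inl_cov.1 h2) (inl_cov.1 h3)
        (fun hc => h4 (Sum.inl_lt_inl_iff.2 hc))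
      refine ⟨Sum.inl c, Sum.inl_lt_inl_iff.2 h5, fun hc => h6 (Sum.inl_lt_inl_iff.1 hc),
        fun z hz => ?_⟩
      rcases z with z | z
      · rcases h7 z (Sum.inl_lt_inl_iff.1 hz) with h | h
        · exact Or.inl (Sum.inl_lt_inl_iff.2 h)
        · exact Or.inr (Sum.inl_lt_inl_iff.2 h)
      · exact absurd hz Sum.not_inr_lt_inl
    · obtain ⟨c, h5, h6, h7⟩ := hβ b₁ b₂ x y (inr_cov.1 h1) (inr_cov.1 h2) (inr_cov.1 h3)
        (fun hc => h4 (Sum.inr_lt_inr_iff.2 hc))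
      refine ⟨Sum.inr c, Sum.inr_lt_inr_iff.2 h5, fun hc => h6 (Sum.inr_lt_inr_iff.1 hc),
        fun z hz => ?_⟩
      rcases z with z | z
      · exact absurd hz Sum.not_inl_lt_inr
      · rcases h7 z (Sum.inr_lt_inr_iff.1 hz) with h | h
        · exact Or.inl (Sum.inr_lt_inr_iff.2 h)
        · exact Or.inr (Sum.inr_lt_inr_iff.2 h)

theorem sec_lex (α β : Type) [PartialOrder α] [PartialOrder β] [Finite α] [Finite β] :
    SEc (α ⊕ₗ β) ↔ SEc α ∧ SEc β := by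
  constructor
  · intro h
    constructor
    · intro b₁ b₂ x y h1 h2 h3 h4
      obtain ⟨b₃, h5, h6, h7⟩ := h (Sum.inlₗ b₁) (Sum.inlₗ b₂) (Sum.inlₗ x) (Sum.inlₗ y)
        (inl_covₗ.2 h1) (inl_covₗ.2 h2) (inl_covₗ.2 h3)
        (fun hc => h4 (Sum.Lex.inl_lt_inl_iff.1 hc))
      rcases b₃ with c | c
      · refine ⟨c, Sum.Lex.inl_lt_inl_iff.1 h5, fun hc => h6 (Sum.Lex.inl_lt_inl_iff.2 hc),
          fun z hz => ?_⟩
        rcases h7 (Sum.inlₗ z) (Sum.Lex.inl_lt_inl_iff.2 hz) with h | h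
        · exact Or.inl (Sum.Lex.inl_lt_inl_iff.1 h)
        · exact Or.inr (Sum.Lex.inl_lt_inl_iff.1 h)
      · exact absurd (Sum.Lex.inl_lt_inr x c) h6
    · intro b₁ b₂ x y h1 h2 h3 h4
      obtain ⟨b₃, h5, h6, h7⟩ := h (Sum.inrₗ b₁) (Sum.inrₗ b₂) (Sum.inrₗ x) (Sum.inrₗ y)
        (inr_covₗ.2 h1) (inr_covₗ.2 h2) (inr_covₗ.2 h3)
        (fun hc => h4 (Sum.Lex.inr_lt_inr_iff.1 hc))
      rcases b₃ with c | c
      · exact absurd h5 Sum.Lex.not_inr_lt_inl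
      · refine ⟨c, Sum.Lex.inr_lt_inr_iff.1 h5, fun hc => h6 (Sum.Lex.inr_lt_inr_iff.2 hc),
          fun z hz => ?_⟩
        rcases h7 (Sum.inrₗ z) (Sum.Lex.inr_lt_inr_iff.2 hz) with h | h
        · exact Or.inl (Sum.Lex.inr_lt_inr_iff.1 h)
        · exact Or.inr (Sum.Lex.inr_lt_inr_iff.1 h)
  · rintro ⟨hα, hβ⟩ b₁ b₂ x y h1 h2 h3 h4
    rcases b₁ with b₁ | b₁
    · rcases x with x | x
      swap
      · exact absurd h1.1 Sum.Lex.not_inr_lt_inl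
      rcases y with y | y
      swap
      · exact absurd h3.1 Sum.Lex.not_inr_lt_inl
      rcases b₂ with b₂ | b₂
      swap
      · exact absurd (Sum.Lex.inl_lt_inr y b₂) h4
      obtain ⟨c, h5, h6, h7⟩ := hα b₁ b₂ x y (inl_covₗ.1 h1) (inl_covₗ.1 h2) (inl_covₗ.1 h3)
        (fun hc => h4 (Sum.Lex.inl_lt_inl_iff.2 hc))
      refine ⟨Sum.inlₗ c, Sum.Lex.inl_lt_inl_iff.2 h5,
        fun hc => h6 (Sum.Lex.inl_lt_inl_iff.1 hc), fun z hz => ?_⟩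
      rcases z with z | z
      · rcases h7 z (Sum.Lex.inl_lt_inl_iff.1 hz) with h | h
        · exact Or.inl (Sum.Lex.inl_lt_inl_iff.2 h)
        · exact Or.inr (Sum.Lex.inl_lt_inl_iff.2 h)
      · exact absurd hz Sum.Lex.not_inr_lt_inl
    · rcases x with x | x
      · obtain ⟨hx, hb⟩ := mixed_covₗ h1
        rcases b₂ with b₂ | b₂
        · exact absurd (Sum.Lex.inl_lt_inl_iff.1 h2.1) (hx b₂)
        rcases y with y | y
        · exact absurd (Sum.Lex.inl_lt_inr y b₂) h4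
        · exact absurd (Sum.Lex.inr_lt_inr_iff.1 h3.1) (hb y)
      · rcases y with y | y
        · exact absurd (Sum.Lex.inr_lt_inr_iff.1 h1.1) ((mixed_covₗ h3).2 x)
        rcases b₂ with b₂ | b₂
        · exact absurd h2.1 Sum.Lex.not_inr_lt_inl
        obtain ⟨c, h5, h6, h7⟩ := hβ b₁ b₂ x y (inr_covₗ.1 h1) (inr_covₗ.1 h2) (inr_covₗ.1 h3)
          (fun hc => h4 (Sum.Lex.inr_lt_inr_iff.2 hc))
        refine ⟨Sum.inrₗ c, Sum.Lex.inr_lt_inr_iff.2 h5,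
          fun hc => h6 (Sum.Lex.inr_lt_inr_iff.1 hc), fun z hz => ?_⟩
        rcases z with z | z
        · exact Or.inl (Sum.Lex.inl_lt_inr z b₁)
        · rcases h7 z (Sum.Lex.inr_lt_inr_iff.1 hz) with h | h
          · exact Or.inl (Sum.Lex.inr_lt_inr_iff.2 h)
          · exact Or.inr (Sum.Lex.inr_lt_inr_iff.2 h)

end Pool.Agent.W5h13.GP
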