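import Pool.Agent.W5h13.GP.Defs

/-!
# Greedy posets (MP_02c6ed_co): the general sufficient condition
-/

namespace Pool.Agent.W5h13.GP

open Set

section
variable {α : Type} [PartialOrder α]

variable (α) in
/-- Resolution of the cover-preserving `N`s: if `b₁` covers `x` and `y`, `b₂` covers `x` and `y` is
not below `b₂`, then some `b₃` above `y`, not above `x`, has all its lower elements below `b₁` or
`b₂`. -/
def SEc : Prop := ∀ b₁ b₂ x y : α, x ⋖ b₁ → x ⋖ b₂ → y ⋖ b₁ → ¬ y < b₂ →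
  ∃ b₃, y < b₃ ∧ ¬ x < b₃ ∧ ∀ z, z < b₃ → z < b₁ ∨ z < b₂

/-- Down-sets. -/
def Dn (X : Set α) : Prop := ∀ x ∈ X, ∀ y, y < x → y ∈ X

open Classical in
/-- A rank function on down-sets. -/
def RankD (ρ : Set α → ℤ) : Prop :=
  ∀ (X : Set α) (x : α), Dn X → Dn (insert x X) → x ∉ X →
    ρ (insert x X) = ρ X + (if dl X x then 0 else 1)
end

/-- (HBD) with resolved `N`s there is a rank function. -/
def S_HBD : Prop := ∀ (α : Type) [PartialOrder α] [Finite α], SEc α → ∃ ρ : Set α → ℤ, RankD ρ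

/-- (HD) with a rank function on down-sets all decompositions have the same length; `Q` is an
up-set. -/
def S_HD : Prop := ∀ (α : Type) [PartialOrder α] [Finite α], ∀ ρ : Set α → ℤ, RankD ρ →
  ∀ (Q : Set α) (m : ℕ), Dn Qᶜ → Full Q m → (m : ℤ) = ρ univ - ρ Qᶜ

end Pool.Agent.W5h13.GP
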