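import Pool.Agent.W5h13.GP.Defs

/-!
# Greedy posets (MP_02c6ed_co): the exchange characterisation for all finite posets
-/

namespace Pool.Agent.W5h13.GP

open Set

section
variable {α : Type} [PartialOrder α]

/-- The sets which can be left over after some greedy chains have been removed one after the
other from the whole poset. -/
inductive Reach : Set α → Prop
  | start : Reach univ
  | step (Q C : Set α) : Reach Q → GC Q C → Reach (Q \ C)

variable (α) in
/-- Exchange property: if `C₁`, `C₂` are different greedy chains of a reachable set `Q` and the rest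
of `C₂` is a greedy chain after the removal of `C₁`, then the rest of `C₁` is a greedy chain after
the removal of `C₂`. -/
def Exch : Prop := ∀ Q : Set α, Reach Q → ∀ C₁ C₂ : Set α, GC Q C₁ → GC Q C₂ → C₁ ≠ C₂ →
  GC (Q \ C₁) (C₂ \ C₁) → GC (Q \ C₂) (C₁ \ C₂)

variable (α) in
/-- All complete greedy decompositions have the same length. -/
def Agr : Prop := ∀ m m', Full (univ : Set α) m → Full (univ : Set α) m' → m = m'
end

/-- (RES) -/
def S_RES : Prop := ∀ (α : Type) [PartialOrder α] (V R K : Set α), DC V R → GC V K → R ⊆ K →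
  R ≠ K → GC (V \ R) (K \ R)

/-- (LL) the main lemma. -/
def S_LL : Prop := ∀ (α : Type) [PartialOrder α] [Finite α] (V R : Set α) (t : α) (n : ℕ),
  (∀ m, Full V m → m = n) → DC V R → R.Nonempty → ¬ GC V R →
  ∃ E : Set α, E ⊆ V \ R ∧ IsChain (· ≤ ·) E ∧ (∀ e ∈ E, t < e) ∧
    (∀ e ∈ E, ∀ y ∈ V \ R, y ≤ e → y ∈ E) ∧
    (∀ z ∈ V \ R, z ∉ E → t < z → (∀ e ∈ E, e < z) → (∀ y ∈ V \ R, y < z → y ∈ E) → False) ∧
    ∃ m, Full ((V \ R) \ E) m ∧ m ≤ n ∧ (E.Nonempty → m + 1 ≤ n)

/-- (NEC) necessity. -/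
def S_NEC : Prop := ∀ (α : Type) [PartialOrder α] [Finite α], Agr α → Exch α

end Pool.Agent.W5h13.GP
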