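import Pool.Agent.W5h13.GP.Defs

/-!
# Greedy posets: runs of the greedy procedure and complete decompositions
-/

namespace Pool.Agent.W5h13.GP

open Set

namespace FL

variable {α : Type} [PartialOrder α]

theorem dc_self {Q : Set α} (h : IsChain (· ≤ ·) Q) : DC Q Q :=
  ⟨subset_rfl, h, fun _ _ y hy _ => hy⟩

theorem gc_self {Q : Set α} (h : IsChain (· ≤ ·) Q) : GC Q Q :=
  ⟨dc_self h, fun _ h1 h2 => h1.1.antisymm h2⟩

theorem gc_eq {Q C : Set α} (h : IsChain (· ≤ ·) Q) (hC : GC Q C) : C = Q :=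
  (hC.2 Q (dc_self h) hC.1.1).symm

theorem diff_ne {Q C : Set α} (h : ¬ IsChain (· ≤ ·) Q) (hC : GC Q C) : (Q \ C).Nonempty := by
  rw [nonempty_iff_ne_empty]
  intro he
  have h1 : Q ⊆ C := diff_eq_empty.mp he
  exact h (hC.1.2.1.mono h1)

theorem full_zero {Q : Set α} {m : ℕ} (h : Full Q m) (hm : m = 0) : Q = ∅ := by
  cases h with
  | nil => rfl
  | cons Q C m hQ hC h' => omega

theorem full_empty {Q : Set α} {m : ℕ} (h : Full Q m) (hQ : Q = ∅) : m = 0 := by
  cases h with
  | nil => rfl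
  | cons Q C m hQ' hC h' => exact absurd hQ hQ'.ne_empty

theorem run_full {Q : Set α} {k : ℕ} (h : Run Q k) (hQ : Q.Nonempty) : Full Q (k + 1) := by
  induction h with
  | stop Q hc =>
    refine Full.cons Q Q 0 hQ (gc_self hc) ?_
    rw [diff_self]
    exact Full.nil
  | step Q C k hc hC h ih => exact Full.cons Q C (k + 1) hQ hC (ih (diff_ne hc hC))

theorem full_run {Q : Set α} {m : ℕ} (h : Full Q m) : ∀ k, m = k + 1 → Run Q k := by
  induction h with
  | nil => intro k hk; omega
  | cons Q C m hQ hC h ih =>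
    intro k hk
    obtain rfl : m = k := by omega
    by_cases hc : IsChain (· ≤ ·) Q
    · have h1 : C = Q := gc_eq hc hC
      have h2 : m = 0 := full_empty h (by rw [h1, diff_self])
      rw [h2]
      exact Run.stop Q hc
    · have h1 : (Q \ C).Nonempty := diff_ne hc hC
      obtain ⟨k', rfl⟩ : ∃ k', m = k' + 1 := by
        rcases Nat.eq_zero_or_eq_succ_pred m with h2 | h2
        · exact absurd (full_zero h h2) h1.ne_empty
        · exact ⟨_, h2⟩
      exact Run.step Q C k' hc hC (ih k' rfl)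

end FL

theorem f : S_F := fun _ _ _ _ k hQ => ⟨fun h => FL.run_full h hQ, fun h => FL.full_run h k rfl⟩

end Pool.Agent.W5h13.GP

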