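import Pool.Agent.W5h13.GP.Defs3
import Pool.Agent.W5h13.GP.F
import Pool.Agent.W5h13.GP.S1
import Pool.Agent.W5h13.GP.S2
import Pool.Agent.W5h13.GP.JL

/-! Greedy posets: all greedy decompositions have the same length. -/

namespace Pool.Agent.W5h13.GP

open Set

namespace GIh

theorem full_pos {α : Type} [PartialOrder α] {Q : Set α} {m : ℕ} (h : Full Q m)
    (hQ : Q.Nonempty) : ∃ k, m = k + 1 := by
  cases h with
  | nil => exact absurd hQ (by simp)
  | cons Q C m _ _ _ => exact ⟨m, rfl⟩

theorem full_empty {α : Type} [PartialOrder α] {m : ℕ} (h : Full (∅ : Set α) m) : m = 0 := by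
  cases h with
  | nil => rfl
  | cons Q C m h _ _ => exact absurd h (by simp)

theorem le_linExt {α : Type} [PartialOrder α] (l : List α) :
    LinExt l ↔ Pool.Agent.W5h13.GP.LE univ l := by
  simp [LinExt, Pool.Agent.W5h13.GP.LE]

end GIh

open GIh in
theorem greedy_iff_agr (α : Type) [PartialOrder α] [Finite α] : Greedy α ↔ Agr α := by
  rcases isEmpty_or_nonempty α with he | hne
  · have hu : (univ : Set α) = ∅ := eq_empty_of_isEmpty univ
    constructor
    · intro _ m m' h h'
      rw [hu] at h h'
      rw [full_empty h, full_empty h']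
    · intro _ k hk
      have hc : IsChain (· ≤ ·) (univ : Set α) := by rw [hu]; exact Set.subsingleton_empty.isChain
      have hk0 : k = 0 := by
        cases hk with
        | stop _ _ => rfl
        | step Q C k h1 _ _ => exact absurd hc h1
      have hj : jn α = 0 := by
        refine Nat.sInf_eq_zero.mpr (Or.inl ⟨[], ⟨List.nodup_nil, fun x => (he.false x).elim,
          List.Pairwise.nil⟩, rfl⟩)
      rw [hk0, hj]
  · have hun : (univ : Set α).Nonempty := univ_nonempty
    constructor
    · intro hG m m' h h'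
      obtain ⟨k, rfl⟩ := full_pos h hun
      obtain ⟨k', rfl⟩ := full_pos h' hun
      rw [hG k ((f α univ k hun).mpr h), hG k' ((f α univ k' hun).mpr h')]
    · intro hA k hk
      have hF := (f α univ k hun).mp hk
      obtain ⟨l, hl, hlk⟩ := s2 α univ k hF
      have hl' : LinExt l := (le_linExt l).mpr hl
      have hmem : jumps l ∈ {k | ∃ l : List α, LinExt l ∧ jumps l = k} := ⟨l, hl', rfl⟩
      have h1 : jn α ≤ k := (Nat.sInf_le hmem).trans (by rw [jl_eq α l hl']; exact hlk)
      obtain ⟨l₂, hl₂, hj₂⟩ : ∃ l : List α, LinExt l ∧ jumps l = jn α :=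
        Nat.sInf_mem (s := {k | ∃ l : List α, LinExt l ∧ jumps l = k}) ⟨_, hmem⟩
      obtain ⟨m, hm, hFm⟩ := s1 α univ l₂ hun ((le_linExt l₂).mp hl₂)
      have h2 := hA _ _ hFm hF
      rw [← jl_eq α l₂ hl₂, hj₂] at hm
      omega

end Pool.Agent.W5h13.GP
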