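import Pool.Agent.W5h13.GP.Defs

/-!
# Greedy posets (MP_02c6ed_co): rank functions give the length of all decompositions (HA1)
-/

namespace Pool.Agent.W5h13.GP

open Set

section
variable {α : Type} [PartialOrder α]

theorem ha_gc_nonempty [Finite α] {Q C : Set α} (hQ : Q.Nonempty) (h : GC Q C) :
    C.Nonempty := by
  by_contra hC
  rw [Set.not_nonempty_iff_eq_empty] at hC
  obtain ⟨q, hq⟩ := (Set.toFinite Q).exists_minimal hQ
  have hD : DC Q {q} := by
    refine ⟨by simpa using hq.1, ?_, ?_⟩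
    · intro x hx y hy hne
      rw [mem_singleton_iff] at hx hy
      exact absurd (hx.trans hy.symm) hne
    · intro x hx y hy hyx
      rw [mem_singleton_iff] at hx ⊢
      subst hx
      exact le_antisymm hyx (hq.2 hy hyx)
  have h1 := h.2 {q} hD (by rw [hC]; exact empty_subset _)
  rw [hC] at h1
  exact absurd h1 (singleton_nonempty q).ne_empty

theorem ha_not_isMin {b : α} : ¬ IsMin b ↔ ∃ a, a < b := not_isMin_iff

/-- A chain has at most one non minimal element. -/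
theorem ha_uniq (h2 : H2 α) {C : Set α} (hC : IsChain (· ≤ ·) C) {b b' : α} (hb : b ∈ C)
    (hb' : b' ∈ C) (h : ¬ IsMin b) (h' : ¬ IsMin b') : b = b' := by
  by_contra hne
  obtain ⟨a, ha⟩ := not_isMin_iff.1 h
  obtain ⟨a', ha'⟩ := not_isMin_iff.1 h'
  rcases hC hb hb' hne with h3 | h3
  · exact h2 a b b' ha (lt_of_le_of_ne h3 hne)
  · exact h2 a' b' b ha' (lt_of_le_of_ne h3 (Ne.symm hne))

/-- A chain has at most one minimal element. -/
theorem ha_uniq' {C : Set α} (hC : IsChain (· ≤ ·) C) {b b' : α} (hb : b ∈ C)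
    (hb' : b' ∈ C) (h : IsMin b) (h' : IsMin b') : b = b' := by
  by_contra hne
  rcases hC hb hb' hne with h3 | h3
  · exact hne (h'.eq_of_le h3)
  · exact hne (h.eq_of_le h3).symm

/-- A greedy chain with the minimal element `x` has a second element iff something is
completed. -/
theorem ha_dl (h2 : H2 α) {Q C : Set α} (hQ : ∀ x ∈ Q, ∀ y, x < y → y ∈ Q) (h : GC Q C) {x : α}
    (hx : x ∈ C) (hm : IsMin x) :
    (∃ b ∈ C, ¬ IsMin b) ↔ dl {x | IsMin x ∧ x ∉ Q} x := by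
  constructor
  · rintro ⟨b, hb, hbm⟩
    have hne : x ≠ b := fun hxb => hbm (hxb ▸ hm)
    have hlt : x < b := by
      rcases h.1.2.1 hx hb hne with h3 | h3
      · exact lt_of_le_of_ne h3 hne
      · exact absurd (hm.eq_of_le h3).symm hne
    refine ⟨b, hlt, fun z hz => ?_⟩
    have hzm : IsMin z := by
      by_contra hz'
      obtain ⟨a, ha⟩ := not_isMin_iff.1 hz'
      exact h2 a z b ha hz
    by_cases hzQ : z ∈ Q
    · right
      exact ha_uniq' h.1.2.1 (h.1.2.2 b hb z hzQ hz.le) hx hzm hm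
    · left
      exact ⟨hzm, hzQ⟩
  · rintro ⟨b, hxb, hb⟩
    by_contra hno
    have hbm : ¬ IsMin b := not_isMin_iff.2 ⟨x, hxb⟩
    have hCx : C ⊆ {x} := by
      intro c hc
      have hcm : IsMin c := by
        by_contra hcm
        exact hno ⟨c, hc, hcm⟩
      exact ha_uniq' h.1.2.1 hc hx hcm hm
    have hbQ : b ∈ Q := hQ x (h.1.1 hx) b hxb
    have hD : DC Q {x, b} := by
      refine ⟨?_, ?_, ?_⟩
      · rintro c (rfl | rfl)
        · exact h.1.1 hx
        · exact hbQ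
      · rintro c (rfl | rfl) d (rfl | rfl) hne
        · exact absurd rfl hne
        · exact Or.inl hxb.le
        · exact Or.inr hxb.le
        · exact absurd rfl hne
      · rintro c (rfl | rfl) d hd hdc
        · left
          exact hm.eq_of_le hdc
        · rcases hdc.eq_or_lt with rfl | hlt
          · right; rfl
          · rcases hb d hlt with h3 | h3
            · exact absurd hd h3.2
            · left; exact h3
    have h4 := h.2 _ hD (hCx.trans (by intro c hc; left; exact hc))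
    have h5 : b ∈ C := by
      rw [← h4]; right; rfl
    exact hno ⟨b, h5, hbm⟩

theorem ha_step [Finite α] (h2 : H2 α) {ρ : Set α → ℤ} (hρ : Rank ρ) {Q C : Set α}
    (hne : Q.Nonempty) (hQ : ∀ x ∈ Q, ∀ y, x < y → y ∈ Q) (h : GC Q C) :
    ({b | b ∈ Q ∧ ¬ IsMin b}.ncard : ℤ) - ρ {x | IsMin x ∧ x ∉ Q} =
      ({b | b ∈ Q \ C ∧ ¬ IsMin b}.ncard : ℤ) - ρ {x | IsMin x ∧ x ∉ Q \ C} + 1 := by
  classical
  have hP1 : (∃ b ∈ C, ¬ IsMin b) →
      ({b | b ∈ Q ∧ ¬ IsMin b}.ncard : ℤ) = ({b | b ∈ Q \ C ∧ ¬ IsMin b}.ncard : ℤ) + 1 := by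
    rintro ⟨b, hb, hbm⟩
    have h3 : {b | b ∈ Q ∧ ¬ IsMin b} = insert b {b | b ∈ Q \ C ∧ ¬ IsMin b} := by
      ext c
      simp only [mem_ofPred_eq, mem_insert_iff, mem_sdiff]
      constructor
      · rintro ⟨hc, hcm⟩
        by_cases hcC : c ∈ C
        · left; exact ha_uniq h2 h.1.2.1 hcC hb hcm hbm
        · right; exact ⟨⟨hc, hcC⟩, hcm⟩
      · rintro (rfl | ⟨⟨hc, _⟩, hcm⟩)
        · exact ⟨h.1.1 hb, hbm⟩
        · exact ⟨hc, hcm⟩
    rw [h3, ncard_insert_of_notMem (by rintro ⟨⟨_, h4⟩, _⟩; exact h4 hb) (toFinite _)]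
    push_cast
    ring
  have hP2 : (¬ ∃ b ∈ C, ¬ IsMin b) →
      ({b | b ∈ Q ∧ ¬ IsMin b}.ncard : ℤ) = ({b | b ∈ Q \ C ∧ ¬ IsMin b}.ncard : ℤ) := by
    intro hno
    have h3 : {b | b ∈ Q ∧ ¬ IsMin b} = {b | b ∈ Q \ C ∧ ¬ IsMin b} := by
      ext c
      simp only [mem_ofPred_eq, mem_sdiff]
      constructor
      · rintro ⟨hc, hcm⟩
        exact ⟨⟨hc, fun hcC => hno ⟨c, hcC, hcm⟩⟩, hcm⟩
      · rintro ⟨⟨hc, _⟩, hcm⟩
        exact ⟨hc, hcm⟩
    rw [h3]
  by_cases hR : ∃ x ∈ C, IsMin x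
  · obtain ⟨x, hx, hm⟩ := hR
    have h3 : {x | IsMin x ∧ x ∉ Q \ C} = insert x {x | IsMin x ∧ x ∉ Q} := by
      ext c
      simp only [mem_ofPred_eq, mem_insert_iff, mem_sdiff, not_and, not_not]
      constructor
      · rintro ⟨hc, hcQ⟩
        by_cases hcQ' : c ∈ Q
        · left; exact ha_uniq' h.1.2.1 (hcQ hcQ') hx hc hm
        · right; exact ⟨hc, hcQ'⟩
      · rintro (rfl | ⟨hc, hcQ⟩)
        · exact ⟨hm, fun _ => hx⟩
        · exact ⟨hc, fun h => absurd h hcQ⟩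
    have h4 := hρ {x | IsMin x ∧ x ∉ Q} x (fun h5 => h5.2 (h.1.1 hx))
    rw [h3, h4]
    by_cases hP : ∃ b ∈ C, ¬ IsMin b
    · rw [if_pos ((ha_dl h2 hQ h hx hm).1 hP), hP1 hP]; ring
    · rw [if_neg (fun h5 => hP ((ha_dl h2 hQ h hx hm).2 h5)), hP2 hP]; ring
  · have hP : ∃ b ∈ C, ¬ IsMin b := by
      obtain ⟨c, hc⟩ := ha_gc_nonempty hne h
      exact ⟨c, hc, fun hm => hR ⟨c, hc, hm⟩⟩
    have h3 : {x | IsMin x ∧ x ∉ Q \ C} = {x | IsMin x ∧ x ∉ Q} := by
      ext c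
      simp only [mem_ofPred_eq, mem_sdiff, not_and, not_not]
      constructor
      · rintro ⟨hc, hcQ⟩
        exact ⟨hc, fun h5 => hR ⟨c, hcQ h5, hc⟩⟩
      · rintro ⟨hc, hcQ⟩
        exact ⟨hc, fun h5 => absurd h5 hcQ⟩
    rw [h3, hP1 hP]; ring

end

/-- (HA1) -/
theorem ha1 : S_HA1 := by
  intro α _ _ h2 ρ hρ Q m hQ hF
  induction hF with
  | nil =>
    have h1 : {b : α | b ∈ (∅ : Set α) ∧ ¬ IsMin b} = ∅ := by
      ext c; simp
    have h3 : {x : α | IsMin x ∧ x ∉ (∅ : Set α)} = {x | IsMin x} := by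
      ext c; simp
    rw [h1, h3]; simp
  | cons Q C m hne hC _ ih =>
    have h3 : ∀ x ∈ Q \ C, ∀ y, x < y → y ∈ Q \ C := by
      rintro x ⟨hx, hxC⟩ y hxy
      exact ⟨hQ x hx y hxy, fun hy => hxC (hC.1.2.2 y hy x hx hxy.le)⟩
    have h4 := ih h3
    have h5 := ha_step h2 hρ hne hQ hC
    push_cast
    linarith

end Pool.Agent.W5h13.GP
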